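import Mathlib

/-!
# Unbiased black-box complexity

The model of unbiased black-box algorithms on the search space `{0,1}^n`, for a general arity
bound `k` and a general class of objective functions, and the class OneMax.
-/

namespace Pool.Agent.H.MP_f3079c_lc

open MeasureTheory
open scoped ENNReal

/-- The search space `{0,1}^n`. -/
abbrev Cube (n : ℕ) : Type := Fin n → Bool

/-- `xorC x w = x ⊕ w`, coordinatewise addition modulo two. -/
def xorC {n : ℕ} (x w : Cube n) : Cube n := fun i => Bool.xor (x i) (w i)

/-- The point obtained from `x` by permuting the coordinates with `σ`. -/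
def permC {n : ℕ} (σ : Equiv.Perm (Fin n)) (x : Cube n) : Cube n := fun i => x (σ i)

/-- A `j`-ary unbiased variation operator: to every tuple of `j` points it assigns a probability
distribution on `{0,1}^n`, in a way that is invariant under `⊕`-translations and under
permutations of the coordinates. -/
structure UnbiasedOperator (n j : ℕ) where
  /-- the distribution `D(· | x^1, ..., x^j)` -/
  dist : (Fin j → Cube n) → PMF (Cube n)
  xor_invariant : ∀ (x : Fin j → Cube n) (w y : Cube n),
    dist (fun l => xorC (x l) w) (xorC y w) = dist x y
  perm_invariant : ∀ (x : Fin j → Cube n) (σ : Equiv.Perm (Fin n)) (y : Cube n),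
    dist (fun l => permC σ (x l)) (permC σ y) = dist x y

/-- What a `k`-ary unbiased algorithm chooses when `t` points have been queried: an arity
`j ≤ k`, the indices of `j` of the `t` earlier points, and a `j`-ary unbiased operator.
For `t = 0` this forces `j = 0`, and a `0`-ary unbiased operator is the uniform distribution. -/
structure Choice (n k t : ℕ) where
  /-- the arity `j` -/
  arity : ℕ
  arity_le : arity ≤ k
  /-- the indices of the parents among the earlier points -/
  parent : Fin arity → Fin t
  /-- the operator `D` -/
  op : UnbiasedOperator n arity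

/-- The distribution of the next query, given the earlier points `x`. -/
noncomputable def Choice.law {n k t : ℕ} (c : Choice n k t) (x : Fin t → Cube n) :
    PMF (Cube n) :=
  c.op.dist fun l => x (c.parent l)

/-- A `k`-ary unbiased black-box algorithm on `{0,1}^n`.  Its own randomness is a seed drawn
from an arbitrary probability space; given the seed and the sequence of the observed values
`f(x^(1)), ..., f(x^(t))`, it makes its choice for the next query. -/
structure UnbiasedAlgorithm (n k : ℕ) where
  /-- the space of seeds -/
  Seed : Type
  /-- its measurable structure -/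
  measurableSpace : MeasurableSpace Seed
  /-- the distribution of the seed -/
  seedLaw : Measure Seed
  isProbabilityMeasure : IsProbabilityMeasure seedLaw
  /-- the choice made after `t` queries, given the seed and the `t` observed values -/
  choice : Seed → (t : ℕ) → (Fin t → ℝ) → Choice n k t
  measurable_choice : ∀ (t : ℕ) (v : Fin t → ℝ) (x : Fin t → Cube n) (y : Cube n),
    Measurable fun s => (choice s t v).law x y

/-- The joint distribution of the first `t` queried points, for a fixed seed `s`, when the
algorithm is run on the objective function `f`. -/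
noncomputable def UnbiasedAlgorithm.run {n k : ℕ} (A : UnbiasedAlgorithm n k) (s : A.Seed)
    (f : Cube n → ℝ) : (t : ℕ) → PMF (Fin t → Cube n)
  | 0 => PMF.pure Fin.elim0
  | t + 1 => (A.run s f t).bind fun x =>
      ((A.choice s t fun i => f (x i)).law x).map fun y =>
        (Fin.snoc x y : Fin (t + 1) → Cube n)

/-- `x` maximises `f`. -/
def IsMaximiser {n : ℕ} (f : Cube n → ℝ) (x : Cube n) : Prop := ∀ y, f y ≤ f x

/-- The expected running time of `A` on `f`: with `T` the number of queries up to and including
the first query of a maximiser of `f`, this is `E[T] = ∑_{t ≥ 0} P(T > t)`, where `T > t` means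
that none of the first `t` queries is a maximiser. -/
noncomputable def UnbiasedAlgorithm.expectedTime {n k : ℕ} (A : UnbiasedAlgorithm n k)
    (f : Cube n → ℝ) : ℝ≥0∞ :=
  let _ := A.measurableSpace
  ∫⁻ s, ∑' t : ℕ, (A.run s f t).toOuterMeasure {x | ∀ i, ¬ IsMaximiser f (x i)} ∂A.seedLaw

/-- The `k`-ary unbiased black-box complexity of a class `F` of objective functions. -/
noncomputable def unbiasedComplexity (n k : ℕ) (F : Set (Cube n → ℝ)) : ℝ≥0∞ :=
  ⨅ A : UnbiasedAlgorithm n k, ⨆ f ∈ F, A.expectedTime f

/-- `OM_z(x) = |{i : x_i = z_i}|`. -/
def OM {n : ℕ} (z : Cube n) : Cube n → ℝ :=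
  fun x => ((Finset.univ.filter fun i => x i = z i).card : ℝ)

/-- The class `OneMax_n = {OM_z : z ∈ {0,1}^n}`. -/
def OneMax (n : ℕ) : Set (Cube n → ℝ) := Set.range OM

/-- `B(n)`: the binary unbiased black-box complexity of `OneMax_n`. -/
noncomputable def B (n : ℕ) : ℝ≥0∞ := unbiasedComplexity n 2 (OneMax n)

end Pool.Agent.H.MP_f3079c_lc
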