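import Pool.Agent.H.MP_f3079c_lc.PairMoment

/-!
Every law that a binary unbiased algorithm can use has a linear part inside the absolutely
convex hull of the earlier points, and a sub-Gaussian noise.
-/

namespace Pool.Agent.H.MP_f3079c_lc

open Finset Real

/-- noise vector of the outcome `y`, for the linear part with coefficients `κ` -/
noncomputable def eta {n t : ℕ} (x : Fin t → Cube n) (κ : Fin t → ℝ) (y : Cube n) (i : Fin n) : ℝ :=
  sg (y i) - ∑ j, κ j * sg (x j i)

/-- The law `L` of the next point admits a decomposition linear part plus sub-Gaussian noise. -/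
def GoodLaw {n t : ℕ} (L : PMF (Cube n)) (x : Fin t → Cube n) : Prop :=
  ∃ κ : Cube n → Fin t → ℝ, (∀ y, ∑ j, |κ y j| ≤ 1) ∧
    ∀ v : Cube n, ∑ y, (L y).toReal * exp (xi2 (eta x (κ y) y) v / 8) ≤ √2

lemma pmf_sum_toReal {α : Type*} [Fintype α] (L : PMF α) : ∑ y, (L y).toReal = 1 := by
  rw [← ENNReal.toReal_sum (fun a _ => L.apply_ne_top a), ← tsum_fintype (L := .unconditional α),
    L.tsum_coe, ENNReal.toReal_one]

/-- proportion of flips in the agreement set -/
noncomputable def pr {n : ℕ} (x y w : Cube n) : ℝ := ((cls x y w).1 : ℝ) / (ag x y).card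
/-- proportion of flips in the difference set -/
noncomputable def qr {n : ℕ} (x y w : Cube n) : ℝ := ((cls x y w).2 : ℝ) / (df x y).card

lemma pr_mem {n : ℕ} (x y w : Cube n) : pr x y w ∈ Set.Icc (0 : ℝ) 1 := by
  refine ⟨by unfold pr; positivity, ?_⟩
  unfold pr
  apply div_le_one_of_le₀ _ (Nat.cast_nonneg _)
  exact_mod_cast Finset.card_le_card (Finset.inter_subset_left (s₁ := ag x y) (s₂ := fl x w))

lemma qr_mem {n : ℕ} (x y w : Cube n) : qr x y w ∈ Set.Icc (0 : ℝ) 1 := by
  refine ⟨by unfold qr; positivity, ?_⟩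
  unfold qr
  apply div_le_one_of_le₀ _ (Nat.cast_nonneg _)
  exact_mod_cast Finset.card_le_card (Finset.inter_subset_left (s₁ := df x y) (s₂ := fl x w))

/-- Exponential moment of the noise of a binary unbiased operator. -/
lemma pair_moment {n : ℕ} (D : UnbiasedOperator n 2) (X : Fin 2 → Cube n) (v : Cube n) :
    ∑ w, (D.dist X w).toReal *
      exp (xi2 (pairNoise (X 0) (X 1) w (pr (X 0) (X 1) w) (qr (X 0) (X 1) w)) v / 8) ≤ √2 := by
  set T : Finset (ℕ × ℕ) := univ.image (cls (X 0) (X 1)) with hT
  have hmaps : ∀ w ∈ (univ : Finset (Cube n)), cls (X 0) (X 1) w ∈ T := fun w hw =>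
    Finset.mem_image_of_mem _ hw
  rw [← Finset.sum_fiberwise_of_maps_to hmaps]
  have hcl : ∀ c ∈ T, ∑ w ∈ univ.filter (fun w => cls (X 0) (X 1) w = c), (D.dist X w).toReal *
      exp (xi2 (pairNoise (X 0) (X 1) w (pr (X 0) (X 1) w) (qr (X 0) (X 1) w)) v / 8)
      ≤ √2 * ∑ w ∈ univ.filter (fun w => cls (X 0) (X 1) w = c), (D.dist X w).toReal := by
    intro c hc
    obtain ⟨w0, -, rfl⟩ := Finset.mem_image.1 hc
    set c := cls (X 0) (X 1) w0 with hcdef
    have hconst : ∀ w ∈ univ.filter (fun w => cls (X 0) (X 1) w = c), D.dist X w = D.dist X w0 := by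
      intro w hw
      simp only [mem_filter, mem_univ, true_and] at hw
      exact dist_eq_of_cls D X w w0 hw
    have ha : c.1 ≤ (ag (X 0) (X 1)).card := by
      have h : (ag (X 0) (X 1) ∩ fl (X 0) w0).card ≤ (ag (X 0) (X 1)).card :=
        Finset.card_le_card Finset.inter_subset_left
      exact h
    have hb : c.2 ≤ (df (X 0) (X 1)).card := by
      have h : (df (X 0) (X 1) ∩ fl (X 0) w0).card ≤ (df (X 0) (X 1)).card :=
        Finset.card_le_card Finset.inter_subset_left
      exact h
    have hm := class_moment (X 0) (X 1) v c.1 c.2 ha hb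
    have e1 : ∑ w ∈ univ.filter (fun w => cls (X 0) (X 1) w = c), (D.dist X w).toReal *
        exp (xi2 (pairNoise (X 0) (X 1) w (pr (X 0) (X 1) w) (qr (X 0) (X 1) w)) v / 8)
        = (D.dist X w0).toReal * ∑ w ∈ univ.filter (fun w => cls (X 0) (X 1) w = (c.1, c.2)),
          exp (xi2 (pairNoise (X 0) (X 1) w (c.1 / (ag (X 0) (X 1)).card)
            (c.2 / (df (X 0) (X 1)).card)) v / 8) := by
      rw [Finset.mul_sum]
      refine Finset.sum_congr rfl fun w hw => ?_
      rw [hconst w hw]
      simp only [mem_filter, mem_univ, true_and] at hw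
      rw [pr, qr, hw]
    have e2 : ∑ w ∈ univ.filter (fun w => cls (X 0) (X 1) w = c), (D.dist X w).toReal
        = (univ.filter (fun w => cls (X 0) (X 1) w = c)).card * (D.dist X w0).toReal := by
      rw [Finset.sum_congr rfl fun w hw => by rw [hconst w hw]]
      simp
    rw [e1, e2]
    calc _ ≤ (D.dist X w0).toReal * (√2 * (univ.filter (fun w => cls (X 0) (X 1) w = c)).card) :=
          mul_le_mul_of_nonneg_left hm ENNReal.toReal_nonneg
      _ = _ := by ring
  calc _ ≤ ∑ c ∈ T, √2 * ∑ w ∈ univ.filter (fun w => cls (X 0) (X 1) w = c),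
        (D.dist X w).toReal := Finset.sum_le_sum hcl
    _ = √2 * ∑ w, (D.dist X w).toReal := by
        rw [← Finset.mul_sum, Finset.sum_fiberwise_of_maps_to hmaps]
    _ = √2 := by rw [pmf_sum_toReal, mul_one]

lemma abs_coeff {p q : ℝ} (hp : p ∈ Set.Icc (0 : ℝ) 1) (hq : q ∈ Set.Icc (0 : ℝ) 1) :
    |1 - p - q| + |q - p| ≤ 1 := by
  obtain ⟨h1, h2⟩ := hp
  obtain ⟨h3, h4⟩ := hq
  rcases abs_cases (1 - p - q) with h | h <;> rcases abs_cases (q - p) with h' | h' <;> linarith

/-- The law of a binary operator applied to two earlier points is good. -/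
lemma good_two {n t : ℕ} (D : UnbiasedOperator n 2) (x : Fin t → Cube n) (a b : Fin t) :
    GoodLaw (D.dist fun l => if l = 0 then x a else x b) x := by
  classical
  set X : Fin 2 → Cube n := fun l => if l = 0 then x a else x b with hX
  have hX0 : X 0 = x a := by simp [hX]
  have hX1 : X 1 = x b := by simp [hX]
  refine ⟨fun w j => (1 - pr (x a) (x b) w - qr (x a) (x b) w) * (if j = a then 1 else 0)
    + (qr (x a) (x b) w - pr (x a) (x b) w) * (if j = b then 1 else 0), fun w => ?_, fun v => ?_⟩
  · have habs := abs_coeff (pr_mem (x a) (x b) w) (qr_mem (x a) (x b) w)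
    calc ∑ j, |(1 - pr (x a) (x b) w - qr (x a) (x b) w) * (if j = a then 1 else 0)
          + (qr (x a) (x b) w - pr (x a) (x b) w) * (if j = b then 1 else 0)|
        ≤ ∑ j, (|1 - pr (x a) (x b) w - qr (x a) (x b) w| * (if j = a then 1 else 0)
          + |qr (x a) (x b) w - pr (x a) (x b) w| * (if j = b then 1 else 0)) := by
          refine Finset.sum_le_sum fun j _ => ?_
          refine (abs_add_le _ _).trans ?_
          rw [abs_mul, abs_mul]
          apply le_of_eq
          congr 1
          · congr 1; split_ifs <;> simp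
          · congr 1; split_ifs <;> simp
      _ = |1 - pr (x a) (x b) w - qr (x a) (x b) w| + |qr (x a) (x b) w - pr (x a) (x b) w| := by
          rw [Finset.sum_add_distrib, ← Finset.mul_sum, ← Finset.mul_sum]
          simp
      _ ≤ 1 := habs
  · have h := pair_moment D X v
    rw [hX0, hX1] at h
    refine le_trans (le_of_eq (Finset.sum_congr rfl fun w _ => ?_)) h
    congr 4
    funext i
    simp only [eta, pairNoise]
    have : ∑ j, ((1 - pr (x a) (x b) w - qr (x a) (x b) w) * (if j = a then 1 else 0)
        + (qr (x a) (x b) w - pr (x a) (x b) w) * (if j = b then 1 else 0)) * sg (x j i)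
        = (1 - pr (x a) (x b) w - qr (x a) (x b) w) * sg (x a i)
          + (qr (x a) (x b) w - pr (x a) (x b) w) * sg (x b i) := by
      have e : ∀ j, ((1 - pr (x a) (x b) w - qr (x a) (x b) w) * (if j = a then (1 : ℝ) else 0)
          + (qr (x a) (x b) w - pr (x a) (x b) w) * (if j = b then (1 : ℝ) else 0)) * sg (x j i)
          = (if j = a then (1 - pr (x a) (x b) w - qr (x a) (x b) w) * sg (x j i) else 0)
            + (if j = b then (qr (x a) (x b) w - pr (x a) (x b) w) * sg (x j i) else 0) := by
        intro j; split_ifs <;> ring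
      rw [Finset.sum_congr rfl fun j _ => e j, Finset.sum_add_distrib]
      simp
    rw [this]
    ring

/-- A unary operator seen as a binary one. -/
def unaryAsBinary {n : ℕ} (D : UnbiasedOperator n 1) : UnbiasedOperator n 2 where
  dist X := D.dist fun _ => X 0
  xor_invariant X w y := D.xor_invariant (fun _ => X 0) w y
  perm_invariant X σ y := D.perm_invariant (fun _ => X 0) σ y

lemma xorC_xorC {n : ℕ} (y y' : Cube n) : xorC y (xorC y y') = y' := by
  funext i; simp [xorC]

/-- The law of a nullary unbiased operator is constant. -/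
lemma nullary_const {n : ℕ} (D : UnbiasedOperator n 0) (X : Fin 0 → Cube n) (y y' : Cube n) :
    D.dist X y = D.dist X y' := by
  have h := D.xor_invariant X (xorC y y') y
  rw [xorC_xorC] at h
  have e : (fun l => xorC (X l) (xorC y y')) = X := by funext l; exact l.elim0
  rw [e] at h
  exact h.symm

lemma cube_mgf {n : ℕ} (v : Cube n) (l : ℝ) :
    ∑ y : Cube n, exp (l * ∑ i, sg (y i) * sg (v i)) = (2 * cosh l) ^ n := by
  have h1 : ∀ y : Cube n, exp (l * ∑ i, sg (y i) * sg (v i)) = ∏ i, exp (l * (sg (y i) * sg (v i))) := by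
    intro y; rw [Finset.mul_sum, exp_sum]
  simp only [h1]
  have h2 := (Finset.prod_univ_sum (fun _ : Fin n => (univ : Finset Bool))
    (fun i b => exp (l * (sg b * sg (v i))))).symm
  rw [Fintype.piFinset_univ] at h2
  rw [h2]
  have h3 : ∀ i : Fin n, ∑ b : Bool, exp (l * (sg b * sg (v i))) = 2 * cosh l := by
    intro i
    rw [Fintype.sum_bool, cosh_eq]
    cases v i <;> simp [sg] <;> ring
  rw [Finset.prod_congr rfl fun i _ => h3 i]
  simp

lemma good_zero {n t : ℕ} (D : UnbiasedOperator n 0) (X : Fin 0 → Cube n) (x : Fin t → Cube n) :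
    GoodLaw (D.dist X) x := by
  refine ⟨fun _ _ => 0, fun y => by simp, fun v => ?_⟩
  set c : ℝ := (D.dist X v).toReal with hc
  have hconst : ∀ y, (D.dist X y).toReal = c := fun y => by rw [hc, nullary_const D X y v]
  have hc0 : 0 ≤ c := ENNReal.toReal_nonneg
  have hsum : (2 : ℝ) ^ n * c = 1 := by
    have := pmf_sum_toReal (D.dist X)
    rw [Finset.sum_congr rfl fun y _ => hconst y] at this
    simpa using this
  have heta : ∀ y : Cube n, eta x (fun _ => 0) y = fun i => sg (y i) := by
    intro y; funext i; simp [eta]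
  have hnorm : ∀ y : Cube n, ∑ i, (sg (y i)) ^ 2 = (n : ℝ) := by
    intro y
    have : ∀ i, (sg (y i)) ^ 2 = 1 := fun i => by rw [sq, sg_sq]
    simp [this]
  have hsq := sq_moment (univ : Finset (Cube n)) (fun y => (D.dist X y).toReal)
    (fun y => (∑ i, sg (y i) * sg (v i)) / √n) 1 (by
      intro l
      have e1 : ∀ y ∈ (univ : Finset (Cube n)), (D.dist X y).toReal *
          exp (l * ((∑ i, sg (y i) * sg (v i)) / √n))
          = c * exp (l / √n * ∑ i, sg (y i) * sg (v i)) := by
        intro y _; rw [hconst y]; congr 2; ring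
      rw [Finset.sum_congr rfl e1, ← Finset.mul_sum, cube_mgf, mul_pow, one_mul]
      have e2 : c * (2 ^ n * cosh (l / √n) ^ n) = cosh (l / √n) ^ n := by
        rw [← mul_assoc, mul_comm c, hsum, one_mul]
      rw [e2]
      calc cosh (l / √n) ^ n ≤ (exp ((l / √n) ^ 2 / 2)) ^ n :=
            pow_le_pow_left₀ (cosh_pos _).le (cosh_le_exp_half_sq _) n
        _ = exp (n * ((l / √n) ^ 2 / 2)) := by rw [← exp_nat_mul]
        _ ≤ exp (l ^ 2) := by
            apply exp_le_exp.2
            rw [div_pow, Real.sq_sqrt (Nat.cast_nonneg n)]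
            by_cases h0 : (n : ℝ) = 0
            · rw [h0]; simp; positivity
            · have : (n : ℝ) * (l ^ 2 / n / 2) = l ^ 2 / 2 := by field_simp
              rw [this]; nlinarith [sq_nonneg l])
  rw [mul_one] at hsq
  refine le_trans (le_of_eq (Finset.sum_congr rfl fun y _ => ?_)) hsq
  rw [heta y, xi2, hnorm y, div_pow, Real.sq_sqrt (Nat.cast_nonneg n)]

/-- Every law used by a binary unbiased algorithm is good. -/
theorem good_choice {n t : ℕ} (c : Choice n 2 t) (x : Fin t → Cube n) : GoodLaw (c.law x) x := by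
  obtain ⟨ar, hle, par, op⟩ := c
  rcases ar with _ | _ | _ | k
  · exact good_zero op _ x
  · have h := good_two (unaryAsBinary op) x (par 0) (par 0)
    have e : (Choice.law ⟨1, hle, par, op⟩ x : PMF (Cube n))
        = (unaryAsBinary op).dist fun l => if l = 0 then x (par 0) else x (par 0) := by
      simp only [Choice.law, unaryAsBinary]
      congr 1
      funext l
      have : l = 0 := Subsingleton.elim _ _
      simp [this]
    rw [show (Choice.law ⟨0 + 1, hle, par, op⟩ x : PMF (Cube n))
      = (unaryAsBinary op).dist fun l => if l = 0 then x (par 0) else x (par 0) from e]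
    exact h
  · have h := good_two op x (par 0) (par 1)
    have e : (Choice.law ⟨2, hle, par, op⟩ x : PMF (Cube n))
        = op.dist fun l => if l = 0 then x (par 0) else x (par 1) := by
      simp only [Choice.law]
      congr 1
      funext l
      fin_cases l <;> simp
    rw [show (Choice.law ⟨0 + 1 + 1, hle, par, op⟩ x : PMF (Cube n))
      = op.dist fun l => if l = 0 then x (par 0) else x (par 1) from e]
    exact h
  · omega

end Pool.Agent.H.MP_f3079c_lc
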