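import Mathlib

/-!
From a sub-Gaussian moment generating function to an exponential moment of the square.
-/

namespace Pool.Agent.H.MP_f3079c_lc

open Finset Real MeasureTheory

lemma gauss_shift_eq (x l : ℝ) :
    exp (l * x - 2 * l ^ 2) = exp (x ^ 2 / 8) * exp (-2 * (l - x / 4) ^ 2) := by
  rw [← exp_add]; congr 1; ring

lemma integrable_gauss_shift (x : ℝ) : Integrable (fun l : ℝ => exp (l * x - 2 * l ^ 2)) := by
  have h := (integrable_exp_neg_mul_sq (b := 2) (by norm_num)).comp_sub_right (x / 4)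
  have h2 := h.const_mul (exp (x ^ 2 / 8))
  refine h2.congr (Filter.Eventually.of_forall fun l => ?_)
  simp only [gauss_shift_eq x l]

lemma integral_gauss_shift (x : ℝ) :
    ∫ l : ℝ, exp (l * x - 2 * l ^ 2) = √(π / 2) * exp (x ^ 2 / 8) := by
  have h1 : (fun l : ℝ => exp (l * x - 2 * l ^ 2))
      = fun l : ℝ => exp (x ^ 2 / 8) * exp (-2 * (l - x / 4) ^ 2) := by
    funext l; exact gauss_shift_eq x l
  rw [h1, integral_const_mul]
  have h2 := integral_sub_right_eq_self (μ := (volume : Measure ℝ))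
    (fun l : ℝ => exp (-2 * l ^ 2)) (x / 4)
  rw [h2, integral_gaussian]
  ring

/-- If `∑ p_w exp (l ξ_w) ≤ M exp (l²)` for all `l` then `∑ p_w exp (ξ_w² / 8) ≤ √2 M`. -/
theorem sq_moment {Ω : Type*} (s : Finset Ω) (p ξ : Ω → ℝ) (M : ℝ)
    (h : ∀ l : ℝ, ∑ w ∈ s, p w * exp (l * ξ w) ≤ M * exp (l ^ 2)) :
    ∑ w ∈ s, p w * exp (ξ w ^ 2 / 8) ≤ √2 * M := by
  have hint : ∀ w ∈ s, Integrable (fun l : ℝ => p w * exp (l * ξ w - 2 * l ^ 2)) := fun w _ =>
    (integrable_gauss_shift (ξ w)).const_mul (p w)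
  have h1 : ∫ l : ℝ, ∑ w ∈ s, p w * exp (l * ξ w - 2 * l ^ 2)
      = √(π / 2) * ∑ w ∈ s, p w * exp (ξ w ^ 2 / 8) := by
    rw [integral_finsetSum s hint, Finset.mul_sum]
    refine Finset.sum_congr rfl fun w _ => ?_
    rw [integral_const_mul, integral_gauss_shift]
    ring
  have h2 : ∫ l : ℝ, ∑ w ∈ s, p w * exp (l * ξ w - 2 * l ^ 2)
      ≤ ∫ l : ℝ, M * exp (-1 * l ^ 2) := by
    apply integral_mono
    · exact integrable_finsetSum s hint
    · exact (integrable_exp_neg_mul_sq (b := 1) (by norm_num)).const_mul M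
    · intro l
      have e1 : ∑ w ∈ s, p w * exp (l * ξ w - 2 * l ^ 2)
          = (∑ w ∈ s, p w * exp (l * ξ w)) * exp (-2 * l ^ 2) := by
        rw [Finset.sum_mul]
        refine Finset.sum_congr rfl fun w _ => ?_
        rw [mul_assoc, ← exp_add]
        congr 2
        ring
      have e2 : M * exp (-1 * l ^ 2) = M * exp (l ^ 2) * exp (-2 * l ^ 2) := by
        rw [mul_assoc, ← exp_add]
        congr 2
        ring
      simp only [e1, e2]
      exact mul_le_mul_of_nonneg_right (h l) (exp_pos _).le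
  rw [integral_const_mul, integral_gaussian, h1, div_one] at h2
  have hpi : (0 : ℝ) < √(π / 2) := by positivity
  have e3 : √π = √(π / 2) * √2 := by
    rw [← Real.sqrt_mul (by positivity)]
    congr 1
    ring
  rw [e3] at h2
  have : √(π / 2) * ∑ w ∈ s, p w * exp (ξ w ^ 2 / 8) ≤ √(π / 2) * (√2 * M) := by
    calc _ ≤ _ := h2
      _ = _ := by ring
  exact le_of_mul_le_mul_left this hpi

end Pool.Agent.H.MP_f3079c_lc
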