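import Mathlib

/-!
Moment generating function of a sum over a uniformly random `a`-subset.
-/

namespace Pool.Agent.H.MP_f3079c_lc

open Finset Real MeasureTheory ProbabilityTheory

/-- Hoeffding's lemma for the uniform distribution on a finite set. -/
lemma hoeffding_avg {ι : Type*} [DecidableEq ι] (S : Finset ι) (hS : S.Nonempty) (u : ι → ℝ)
    (hu : ∀ i ∈ S, u i ∈ Set.Icc (-1 : ℝ) 1) (θ : ℝ) :
    ∑ i ∈ S, exp (θ * (u i - (∑ k ∈ S, u k) / S.card)) ≤ S.card * exp (θ ^ 2 / 2) := by
  classical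
  let _ : MeasurableSpace S := ⊤
  have _ : Nonempty S := hS.to_subtype
  set μ : Measure S := (PMF.uniformOfFintype S).toMeasure with hμ
  have _ : IsProbabilityMeasure μ := PMF.toMeasure.isProbabilityMeasure _
  have hcard : (0 : ℝ) < S.card := by exact_mod_cast hS.card_pos
  have hint : ∀ g : S → ℝ, ∫ i, g i ∂μ = (∑ i : S, g i) / S.card := by
    intro g
    rw [hμ, PMF.integral_eq_sum]
    simp [div_eq_inv_mul, Finset.mul_sum]
  have hX : AEMeasurable (fun i : S => u i) μ := (measurable_of_finite _).aemeasurable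
  have hsub := hasSubgaussianMGF_of_mem_Icc (μ := μ) (X := fun i : S => u i) (a := -1) (b := 1)
    hX (Filter.Eventually.of_forall fun i => hu i i.2)
  have h1 := hsub.mgf_le θ
  have hsum : ∀ g : ι → ℝ, ∑ i : S, g i = ∑ i ∈ S, g i := fun g => by
    rw [Finset.sum_coe_sort S g]
  rw [mgf, hint] at h1
  rw [hint, hsum u] at h1
  have h2 : (∑ i : S, exp (θ * (u i - (∑ k ∈ S, u k) / S.card)))
      = ∑ i ∈ S, exp (θ * (u i - (∑ k ∈ S, u k) / S.card)) :=
    hsum (fun i => exp (θ * (u i - (∑ k ∈ S, u k) / S.card)))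
  rw [h2, div_le_iff₀ hcard] at h1
  have h3 : (((‖(1 : ℝ) - -1‖₊ / 2) ^ 2 : NNReal) : ℝ) = 1 := by
    have : (‖(1 : ℝ) - -1‖ : ℝ) = 2 := by norm_num
    push_cast
    rw [this]
    norm_num
  rw [h3] at h1
  calc _ ≤ _ := h1
    _ = _ := by rw [one_mul, mul_comm]

/-- Double counting of pairs (subset, element of it). -/
lemma sum_powersetCard_succ {ι M : Type*} [DecidableEq ι] [AddCommMonoid M] (S : Finset ι)
    (a : ℕ) (g : Finset ι → M) :
    (a + 1) • ∑ F ∈ S.powersetCard (a + 1), g F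
      = ∑ i ∈ S, ∑ F ∈ (S.erase i).powersetCard a, g (insert i F) := by
  have h1 : (a + 1) • ∑ F ∈ S.powersetCard (a + 1), g F
      = ∑ F ∈ S.powersetCard (a + 1), ∑ _i ∈ F, g F := by
    rw [Finset.smul_sum]
    refine Finset.sum_congr rfl fun F hF => ?_
    rw [Finset.sum_const, (Finset.mem_powersetCard.1 hF).2]
  rw [h1, Finset.sum_sigma', Finset.sum_sigma']
  refine Finset.sum_bij' (fun p _ => ⟨p.2, p.1.erase p.2⟩) (fun p _ => ⟨insert p.1 p.2, p.1⟩)
    ?_ ?_ ?_ ?_ ?_
  · rintro ⟨F, i⟩ h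
    simp only [Finset.mem_sigma, Finset.mem_powersetCard] at h ⊢
    obtain ⟨⟨hF, hc⟩, hi⟩ := h
    exact ⟨hF hi, Finset.erase_subset_erase i hF, by rw [Finset.card_erase_of_mem hi, hc]; rfl⟩
  · rintro ⟨i, F⟩ h
    simp only [Finset.mem_sigma, Finset.mem_powersetCard] at h ⊢
    obtain ⟨hi, hF, hc⟩ := h
    have hni : i ∉ F := fun hh => by simpa using hF hh
    exact ⟨⟨Finset.insert_subset hi (hF.trans (Finset.erase_subset _ _)),
      by rw [Finset.card_insert_of_notMem hni, hc]⟩, Finset.mem_insert_self _ _⟩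
  · rintro ⟨F, i⟩ h
    simp only [Finset.mem_sigma, Finset.mem_powersetCard] at h
    simp [Finset.insert_erase h.2]
  · rintro ⟨i, F⟩ h
    simp only [Finset.mem_sigma, Finset.mem_powersetCard] at h
    obtain ⟨hi, hF, hc⟩ := h
    have hni : i ∉ F := fun hh => by simpa using hF hh
    simp [Finset.erase_insert hni]
  · rintro ⟨F, i⟩ h
    simp only [Finset.mem_sigma, Finset.mem_powersetCard] at h
    simp [Finset.insert_erase h.2]

lemma expo_ineq (N a m θ : ℝ) (hN : 2 ≤ N) :
    θ * (a + 1) * m + θ ^ 2 * (a * (N - 1 - a) / (N - 1)) + (θ * (N - 1 - a) / (N - 1)) ^ 2 / 2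
      ≤ θ * (a + 1) * m + θ ^ 2 * ((a + 1) * (N - (a + 1)) / N) := by
  have hN1 : (0 : ℝ) < N - 1 := by linarith
  have hN0 : (0 : ℝ) < N := by linarith
  have e : θ * (a + 1) * m + θ ^ 2 * ((a + 1) * (N - (a + 1)) / N)
      - (θ * (a + 1) * m + θ ^ 2 * (a * (N - 1 - a) / (N - 1))
    + (θ * (N - 1 - a) / (N - 1)) ^ 2 / 2)
    = θ ^ 2 * ((N - 1 - a) ^ 2 * (N - 2) / (2 * N * (N - 1) ^ 2)) := by
    field_simp
    ring
  have : 0 ≤ θ ^ 2 * ((N - 1 - a) ^ 2 * (N - 2) / (2 * N * (N - 1) ^ 2)) := by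
    have : (0 : ℝ) ≤ N - 2 := by linarith
    positivity
  linarith

/-- Moment generating function of a sum over a uniformly random `a`-subset of `S`. -/
theorem subset_mgf {ι : Type*} [DecidableEq ι] (a : ℕ) :
    ∀ (S : Finset ι) (u : ι → ℝ), (∀ i ∈ S, u i ∈ Set.Icc (-1 : ℝ) 1) → a ≤ S.card → ∀ θ : ℝ,
    ∑ F ∈ S.powersetCard a, exp (θ * ∑ i ∈ F, u i)
      ≤ (S.card.choose a : ℝ) * exp (θ * a * ((∑ i ∈ S, u i) / S.card)
        + θ ^ 2 * (a * (S.card - a) / S.card)) := by
  induction a with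
  | zero =>
    intro S u _ _ θ
    simp
  | succ a ih =>
    intro S u hu ha θ
    obtain hN1 | hN2 : S.card = 1 ∨ 2 ≤ S.card := by omega
    · have ha0 : a = 0 := by omega
      subst ha0
      obtain ⟨i, rfl⟩ := Finset.card_eq_one.1 hN1
      simp [Finset.powersetCard_one]
    · set N : ℝ := (S.card : ℝ) with hN
      have hNr : (2 : ℝ) ≤ N := by rw [hN]; exact_mod_cast hN2
      set m : ℝ := (∑ i ∈ S, u i) / N with hm
      have hsumu : ∑ i ∈ S, u i = N * m := by rw [hm]; field_simp
      have hne : S.Nonempty := Finset.card_pos.1 (by omega)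
      have key := sum_powersetCard_succ S a (fun F => exp (θ * ∑ i ∈ F, u i))
      have haN : (a : ℝ) + 1 ≤ N := by rw [hN]; exact_mod_cast ha
      -- bound inner sums
      have inner : ∀ i ∈ S, ∑ F ∈ (S.erase i).powersetCard a, exp (θ * ∑ k ∈ insert i F, u k)
          ≤ ((S.card - 1).choose a : ℝ) * (exp (θ * (a + 1) * m + θ ^ 2 * (a * (N - 1 - a) / (N - 1)))
            * exp ((θ * (N - 1 - a) / (N - 1)) * (u i - m))) := by
        intro i hi
        have e1 : ∑ F ∈ (S.erase i).powersetCard a, exp (θ * ∑ k ∈ insert i F, u k)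
            = exp (θ * u i) * ∑ F ∈ (S.erase i).powersetCard a, exp (θ * ∑ k ∈ F, u k) := by
          rw [Finset.mul_sum]
          refine Finset.sum_congr rfl fun F hF => ?_
          have hni : i ∉ F := fun hh => by
            simpa using (Finset.mem_powersetCard.1 hF).1 hh
          rw [Finset.sum_insert hni, mul_add, exp_add]
        have hce : (S.erase i).card = S.card - 1 := Finset.card_erase_of_mem hi
        have hcr : ((S.erase i).card : ℝ) = N - 1 := by
          rw [hce, Nat.cast_sub (by omega)]; simp [hN]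
        have h2 := ih (S.erase i) u (fun k hk => hu k (Finset.mem_of_mem_erase hk))
          (by rw [hce]; omega) θ
        have hsum2 : ∑ k ∈ S.erase i, u k = N * m - u i := by
          rw [← hsumu, ← Finset.sum_erase_add S u hi]; ring
        rw [hcr, hsum2, hce] at h2
        rw [e1]
        calc exp (θ * u i) * ∑ F ∈ (S.erase i).powersetCard a, exp (θ * ∑ k ∈ F, u k)
            ≤ exp (θ * u i) * (((S.card - 1).choose a : ℝ) * exp (θ * a * ((N * m - u i) / (N - 1))
              + θ ^ 2 * (a * (N - 1 - a) / (N - 1)))) :=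
              mul_le_mul_of_nonneg_left h2 (exp_pos _).le
          _ = _ := by
              rw [mul_left_comm, ← exp_add, ← exp_add]
              congr 2
              have : N - 1 ≠ 0 := by linarith
              field_simp
              ring
      have hav := hoeffding_avg S hne u hu (θ * (N - 1 - a) / (N - 1))
      rw [← hN, ← hm] at hav
      have hpos : (0 : ℝ) < (a : ℝ) + 1 := by positivity
      have hchoose : ((a : ℝ) + 1) * (S.card.choose (a + 1) : ℝ)
          = N * ((S.card - 1).choose a : ℝ) := by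
        have h := Nat.add_one_mul_choose_eq (S.card - 1) a
        have h' : S.card - 1 + 1 = S.card := by omega
        rw [h'] at h
        have h3 : ((S.card : ℝ)) * ((S.card - 1).choose a : ℝ)
            = (S.card.choose (a + 1) : ℝ) * ((a : ℝ) + 1) := by exact_mod_cast h
        rw [hN, h3, mul_comm]
      have hfinal : ((a : ℝ) + 1) * ∑ F ∈ S.powersetCard (a + 1), exp (θ * ∑ i ∈ F, u i)
          ≤ ((a : ℝ) + 1) * ((S.card.choose (a + 1) : ℝ) * exp (θ * (a + 1) * m
            + θ ^ 2 * ((a + 1) * (N - (a + 1)) / N))) := by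
        calc ((a : ℝ) + 1) * ∑ F ∈ S.powersetCard (a + 1), exp (θ * ∑ i ∈ F, u i)
            = (a + 1) • ∑ F ∈ S.powersetCard (a + 1), exp (θ * ∑ i ∈ F, u i) := by
              rw [nsmul_eq_mul]; push_cast; ring
          _ = ∑ i ∈ S, ∑ F ∈ (S.erase i).powersetCard a, exp (θ * ∑ k ∈ insert i F, u k) := key
          _ ≤ ∑ i ∈ S, ((S.card - 1).choose a : ℝ) *
              (exp (θ * (a + 1) * m + θ ^ 2 * (a * (N - 1 - a) / (N - 1)))
              * exp ((θ * (N - 1 - a) / (N - 1)) * (u i - m))) := Finset.sum_le_sum inner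
          _ = ((S.card - 1).choose a : ℝ) *
              (exp (θ * (a + 1) * m + θ ^ 2 * (a * (N - 1 - a) / (N - 1)))
              * ∑ i ∈ S, exp ((θ * (N - 1 - a) / (N - 1)) * (u i - m))) := by
              rw [Finset.mul_sum, Finset.mul_sum]
          _ ≤ ((S.card - 1).choose a : ℝ) *
              (exp (θ * (a + 1) * m + θ ^ 2 * (a * (N - 1 - a) / (N - 1)))
              * (N * exp ((θ * (N - 1 - a) / (N - 1)) ^ 2 / 2))) := by
              gcongr
          _ = (N * ((S.card - 1).choose a : ℝ)) *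
              exp (θ * (a + 1) * m + θ ^ 2 * (a * (N - 1 - a) / (N - 1))
                + (θ * (N - 1 - a) / (N - 1)) ^ 2 / 2) := by
              rw [exp_add _ ((θ * (N - 1 - a) / (N - 1)) ^ 2 / 2)]; ring
          _ ≤ (N * ((S.card - 1).choose a : ℝ)) *
              exp (θ * (a + 1) * m + θ ^ 2 * ((a + 1) * (N - (a + 1)) / N)) := by
              have hc0 : (0 : ℝ) ≤ ((S.card - 1).choose a : ℝ) := Nat.cast_nonneg _
              have hN0 : (0 : ℝ) ≤ N := by linarith
              exact mul_le_mul_of_nonneg_left (exp_le_exp.2 (expo_ineq N a m θ hNr))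
                (mul_nonneg hN0 hc0)
          _ = _ := by rw [← hchoose]; ring
      have := le_of_mul_le_mul_left hfinal hpos
      push_cast
      exact this

end Pool.Agent.H.MP_f3079c_lc
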