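import Pool.Agent.H.MP_f3079c_lc.Defs
import Pool.Agent.H.MP_f3079c_lc.Subset
import Pool.Agent.H.MP_f3079c_lc.Square

/-!
The law of a binary unbiased operator: it depends only on the numbers of flips among the
coordinates where the parents agree and where they differ.
-/

namespace Pool.Agent.H.MP_f3079c_lc

open Finset Real

/-- `±1` version of a bit. -/
noncomputable def sg (b : Bool) : ℝ := if b then 1 else -1

lemma sg_sq (b : Bool) : sg b * sg b = 1 := by cases b <;> simp [sg]

lemma sg_not (b : Bool) : sg (!b) = -sg b := by cases b <;> simp [sg]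

lemma sg_mul_mem (b c : Bool) : sg b * sg c ∈ Set.Icc (-1 : ℝ) 1 := by
  cases b <;> cases c <;> simp [sg]

/-- agreement set -/
def ag {n : ℕ} (x y : Cube n) : Finset (Fin n) := univ.filter fun i => x i = y i
/-- difference set -/
def df {n : ℕ} (x y : Cube n) : Finset (Fin n) := univ.filter fun i => ¬ x i = y i
/-- set of flipped coordinates -/
def fl {n : ℕ} (x w : Cube n) : Finset (Fin n) := univ.filter fun i => ¬ w i = x i
/-- numbers of flips in the agreement and the difference set -/
def cls {n : ℕ} (x y w : Cube n) : ℕ × ℕ := ((ag x y ∩ fl x w).card, (df x y ∩ fl x w).card)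

/-- flip the coordinates in `F` -/
def flipC {n : ℕ} (x : Cube n) (F : Finset (Fin n)) : Cube n := fun i => if i ∈ F then !(x i) else x i

lemma ag_union_df {n : ℕ} (x y : Cube n) : ag x y ∪ df x y = univ := by
  ext i; simp [ag, df, em]

lemma disj_ag_df {n : ℕ} (x y : Cube n) : Disjoint (ag x y) (df x y) := by
  rw [Finset.disjoint_left]; intro i h; simpa [ag, df] using h

lemma sum_ag_df {n : ℕ} (x y : Cube n) (g : Fin n → ℝ) :
    ∑ i, g i = ∑ i ∈ ag x y, g i + ∑ i ∈ df x y, g i := by
  rw [← Finset.sum_union (disj_ag_df x y), ag_union_df]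

/-- A permutation matching two colourings with equal counts. -/
lemma exists_perm {n : ℕ} (d u u' : Fin n → Bool)
    (h : ∀ b, (univ.filter fun i => d i = b ∧ u i = true).card
      = (univ.filter fun i => d i = b ∧ u' i = true).card) :
    ∃ σ : Equiv.Perm (Fin n), (∀ i, d (σ i) = d i) ∧ ∀ i, u (σ i) = u' i := by
  have hc : ∀ c : Bool × Bool, Fintype.card {i // (d i, u' i) = c}
      = Fintype.card {i // (d i, u i) = c} := by
    rintro ⟨b, e⟩
    rw [Fintype.card_subtype, Fintype.card_subtype]
    simp only [Prod.mk.injEq]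
    cases e with
    | true => exact (h b).symm
    | false =>
      have key : ∀ v : Fin n → Bool, (univ.filter fun i => d i = b).card
          = (univ.filter fun i => d i = b ∧ v i = true).card
            + (univ.filter fun i => d i = b ∧ v i = false).card := by
        intro v
        rw [← Finset.card_union_of_disjoint]
        · congr 1
          ext i
          simp only [mem_filter, mem_univ, true_and, mem_union]
          cases v i <;> simp
        · rw [Finset.disjoint_left]
          intro i h1 h2
          simp only [mem_filter, mem_univ, true_and] at h1 h2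
          rw [h1.2] at h2
          simp at h2
      have k1 := key u
      have k2 := key u'
      have := h b
      omega
  have e : ∀ c : Bool × Bool, {i // (d i, u' i) = c} ≃ {i // (d i, u i) = c} := fun c =>
    Fintype.equivOfCardEq (hc c)
  refine ⟨Equiv.ofFiberEquiv e, fun i => ?_, fun i => ?_⟩
  · have := Equiv.ofFiberEquiv_map e i
    exact (Prod.mk.inj this).1
  · have := Equiv.ofFiberEquiv_map e i
    exact (Prod.mk.inj this).2

/-- The law of a binary unbiased operator is constant on classes. -/
lemma dist_eq_of_cls {n : ℕ} (D : UnbiasedOperator n 2) (X : Fin 2 → Cube n) (w w' : Cube n)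
    (h : cls (X 0) (X 1) w = cls (X 0) (X 1) w') : D.dist X w = D.dist X w' := by
  set d : Cube n := xorC (X 1) (X 0) with hd
  set u : Cube n := xorC w (X 0) with hu
  set u' : Cube n := xorC w' (X 0) with hu'
  have hh : ∀ b, (univ.filter fun i => d i = b ∧ u i = true).card
      = (univ.filter fun i => d i = b ∧ u' i = true).card := by
    intro b
    have h1 := (Prod.mk.inj h).1
    have h2 := (Prod.mk.inj h).2
    have aux : ∀ v : Cube n, (univ.filter fun i => d i = false ∧ xorC v (X 0) i = true)
        = ag (X 0) (X 1) ∩ fl (X 0) v := by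
      intro v
      ext i
      simp only [mem_filter, mem_univ, true_and, mem_inter, ag, fl, hd, xorC]
      cases X 0 i <;> cases X 1 i <;> cases v i <;> simp
    have aux2 : ∀ v : Cube n, (univ.filter fun i => d i = true ∧ xorC v (X 0) i = true)
        = df (X 0) (X 1) ∩ fl (X 0) v := by
      intro v
      ext i
      simp only [mem_filter, mem_univ, true_and, mem_inter, df, fl, hd, xorC]
      cases X 0 i <;> cases X 1 i <;> cases v i <;> simp
    cases b with
    | false => rw [hu, hu', aux, aux]; exact h1
    | true => rw [hu, hu', aux2, aux2]; exact h2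
  obtain ⟨σ, hσ1, hσ2⟩ := exists_perm d u u' hh
  have e1 : D.dist X w = D.dist (fun l => xorC (X l) (X 0)) u := (D.xor_invariant X (X 0) w).symm
  have e2 : D.dist X w' = D.dist (fun l => xorC (X l) (X 0)) u' :=
    (D.xor_invariant X (X 0) w').symm
  have e3 := D.perm_invariant (fun l => xorC (X l) (X 0)) σ u
  have e4 : (fun l => permC σ (xorC (X l) (X 0))) = fun l => xorC (X l) (X 0) := by
    funext l
    fin_cases l
    · funext i; simp [permC, xorC]
    · funext i; exact hσ1 i
  have e5 : permC σ u = u' := by funext i; exact hσ2 i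
  rw [e4, e5] at e3
  rw [e1, e2, e3]

lemma fl_flipC {n : ℕ} (x : Cube n) (F : Finset (Fin n)) : fl x (flipC x F) = F := by
  ext i
  rw [fl, mem_filter]
  by_cases h : i ∈ F <;> simp [flipC, h]

lemma flipC_fl {n : ℕ} (x w : Cube n) : flipC x (fl x w) = w := by
  funext i
  by_cases h : w i = x i
  · simp [flipC, fl, h]
  · have h1 : i ∈ fl x w := by simp [fl, h]
    simp only [flipC, h1, if_true]
    cases hx : x i <;> cases hw : w i <;> simp_all

lemma ag_inter_union {n : ℕ} {x y : Cube n} {F F' : Finset (Fin n)} (hF : F ⊆ ag x y)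
    (hF' : F' ⊆ df x y) : ag x y ∩ (F ∪ F') = F := by
  have hd := disj_ag_df x y
  ext i
  simp only [mem_inter, mem_union]
  constructor
  · rintro ⟨h1, h2 | h2⟩
    · exact h2
    · exact absurd (hF' h2) (Finset.disjoint_left.1 hd h1)
  · intro h; exact ⟨hF h, Or.inl h⟩

lemma df_inter_union {n : ℕ} {x y : Cube n} {F F' : Finset (Fin n)} (hF : F ⊆ ag x y)
    (hF' : F' ⊆ df x y) : df x y ∩ (F ∪ F') = F' := by
  have hd := disj_ag_df x y
  ext i
  simp only [mem_inter, mem_union]
  constructor
  · rintro ⟨h1, h2 | h2⟩
    · exact absurd h1 (Finset.disjoint_left.1 hd (hF h2))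
    · exact h2
  · intro h; exact ⟨hF' h, Or.inr h⟩

/-- Sums over a class of outcomes as double sums over flip sets. -/
lemma sum_cls {n : ℕ} (x y : Cube n) (a b : ℕ) (g : Cube n → ℝ) :
    ∑ w ∈ univ.filter (fun w => cls x y w = (a, b)), g w
      = ∑ F ∈ (ag x y).powersetCard a, ∑ F' ∈ (df x y).powersetCard b, g (flipC x (F ∪ F')) := by
  rw [← Finset.sum_product' (f := fun F F' => g (flipC x (F ∪ F')))]
  refine Finset.sum_bij' (fun w _ => (ag x y ∩ fl x w, df x y ∩ fl x w))
    (fun p _ => flipC x (p.1 ∪ p.2)) ?_ ?_ ?_ ?_ ?_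
  · intro w hw
    simp only [mem_filter, mem_univ, true_and, cls, Prod.mk.injEq] at hw
    simp only [mem_product, mem_powersetCard]
    exact ⟨⟨inter_subset_left, hw.1⟩, inter_subset_left, hw.2⟩
  · rintro ⟨F, F'⟩ hp
    simp only [mem_product, mem_powersetCard] at hp
    obtain ⟨⟨hF, hFc⟩, hF', hFc'⟩ := hp
    simp only [mem_filter, mem_univ, true_and, cls, Prod.mk.injEq]
    rw [fl_flipC, ag_inter_union hF hF', df_inter_union hF hF']
    exact ⟨hFc, hFc'⟩
  · intro w _
    simp only
    rw [← Finset.union_inter_distrib_right, ag_union_df, Finset.univ_inter, flipC_fl]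
  · rintro ⟨F, F'⟩ hp
    simp only [mem_product, mem_powersetCard] at hp
    obtain ⟨⟨hF, hFc⟩, hF', hFc'⟩ := hp
    simp only
    rw [fl_flipC, ag_inter_union hF hF', df_inter_union hF hF']
  · intro w _
    simp only
    rw [← Finset.union_inter_distrib_right, ag_union_df, Finset.univ_inter, flipC_fl]

end Pool.Agent.H.MP_f3079c_lc
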