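import Pool.Agent.H.MP_f3079c_lc.Pair

/-!
Exponential moment of the squared normalised noise of a binary unbiased operator.
-/

namespace Pool.Agent.H.MP_f3079c_lc

open Finset Real

/-- squared normalised inner product of a noise vector with a point -/
noncomputable def xi2 {n : ℕ} (e : Fin n → ℝ) (v : Cube n) : ℝ :=
  (∑ i, e i * sg (v i)) ^ 2 / ∑ i, e i ^ 2

lemma xi2_nonneg {n : ℕ} (e : Fin n → ℝ) (v : Cube n) : 0 ≤ xi2 e v :=
  div_nonneg (sq_nonneg _) (Finset.sum_nonneg fun _ _ => sq_nonneg _)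

/-- noise vector of an outcome `w` of a binary operator with parents `x`, `y` -/
noncomputable def pairNoise {n : ℕ} (x y w : Cube n) (p q : ℝ) (i : Fin n) : ℝ :=
  sg (w i) - (1 - p - q) * sg (x i) - (q - p) * sg (y i)

lemma pairNoise_flip {n : ℕ} (x y : Cube n) {F F' : Finset (Fin n)} (hF : F ⊆ ag x y)
    (hF' : F' ⊆ df x y) (p q : ℝ) (i : Fin n) :
    pairNoise x y (flipC x (F ∪ F')) p q i
      = sg (x i) * (if i ∈ ag x y then 2 * p - (if i ∈ F then 2 else 0)
          else 2 * q - (if i ∈ F' then 2 else 0)) := by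
  have hd := disj_ag_df x y
  by_cases h : i ∈ ag x y
  · have hxy : x i = y i := by simpa [ag] using h
    have hn : i ∉ F' := fun h' => Finset.disjoint_left.1 hd h (hF' h')
    by_cases h2 : i ∈ F
    · simp only [pairNoise, flipC, mem_union, h2, true_or, if_true, h, sg_not, ← hxy]; ring
    · simp only [pairNoise, flipC, mem_union, h2, hn, or_self, if_false, h, if_true, ← hxy]; ring
  · have hxy : y i = !(x i) := by
      have : ¬ x i = y i := by simpa [ag] using h
      cases hx : x i <;> cases hy : y i <;> simp_all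
    have hn : i ∉ F := fun h' => h (hF h')
    by_cases h2 : i ∈ F'
    · simp only [pairNoise, flipC, mem_union, h2, or_true, if_true, h, if_false, sg_not, hxy]; ring
    · simp only [pairNoise, flipC, mem_union, h2, hn, or_self, if_false, h, hxy, sg_not]; ring

lemma sum_ite_sub {n : ℕ} (S F : Finset (Fin n)) (hF : F ⊆ S) (t : Fin n → ℝ) (p : ℝ) :
    ∑ i ∈ S, t i * (2 * p - (if i ∈ F then 2 else 0)) = 2 * p * ∑ i ∈ S, t i - 2 * ∑ i ∈ F, t i := by
  have h1 : ∑ i ∈ S, t i * (if i ∈ F then (2 : ℝ) else 0) = 2 * ∑ i ∈ F, t i := by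
    have : ∀ i ∈ S, t i * (if i ∈ F then (2 : ℝ) else 0) = if i ∈ F then 2 * t i else 0 := by
      intro i _; split_ifs <;> ring
    rw [Finset.sum_congr rfl this, ← Finset.sum_filter, Finset.filter_mem_eq_inter,
      Finset.inter_eq_right.2 hF, Finset.mul_sum]
  rw [Finset.mul_sum, ← h1, ← Finset.sum_sub_distrib]
  exact Finset.sum_congr rfl fun i _ => by ring

lemma sum_sq_ite_sub {n : ℕ} (S F : Finset (Fin n)) (hF : F ⊆ S) (p : ℝ) :
    ∑ i ∈ S, (2 * p - (if i ∈ F then (2 : ℝ) else 0)) ^ 2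
      = 4 * p ^ 2 * S.card - 8 * p * F.card + 4 * F.card := by
  have h1 : ∑ i ∈ S, (if i ∈ F then (1 : ℝ) else 0) = F.card := by
    rw [← Finset.sum_filter, Finset.filter_mem_eq_inter, Finset.inter_eq_right.2 hF]; simp
  have h2 : ∀ i ∈ S, (2 * p - (if i ∈ F then (2 : ℝ) else 0)) ^ 2
      = 4 * p ^ 2 + (4 - 8 * p) * (if i ∈ F then (1 : ℝ) else 0) := by
    intro i _; split_ifs <;> ring
  rw [Finset.sum_congr rfl h2, Finset.sum_add_distrib, ← Finset.mul_sum S _ (4 - 8 * p), h1,
    Finset.sum_const, nsmul_eq_mul]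
  ring

lemma inner_pairNoise {n : ℕ} (x y v : Cube n) {F F' : Finset (Fin n)} (hF : F ⊆ ag x y)
    (hF' : F' ⊆ df x y) (p q : ℝ) :
    ∑ i, pairNoise x y (flipC x (F ∪ F')) p q i * sg (v i)
      = (2 * p * ∑ i ∈ ag x y, sg (x i) * sg (v i) - 2 * ∑ i ∈ F, sg (x i) * sg (v i))
        + (2 * q * ∑ i ∈ df x y, sg (x i) * sg (v i) - 2 * ∑ i ∈ F', sg (x i) * sg (v i)) := by
  rw [sum_ag_df x y, ← sum_ite_sub _ _ hF, ← sum_ite_sub _ _ hF']
  congr 1
  · refine Finset.sum_congr rfl fun i hi => ?_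
    rw [pairNoise_flip x y hF hF' p q i, if_pos hi]; ring
  · refine Finset.sum_congr rfl fun i hi => ?_
    have h : i ∉ ag x y := fun h' => Finset.disjoint_left.1 (disj_ag_df x y) h' hi
    rw [pairNoise_flip x y hF hF' p q i, if_neg h]; ring

lemma normsq_pairNoise {n : ℕ} (x y : Cube n) {F F' : Finset (Fin n)} (hF : F ⊆ ag x y)
    (hF' : F' ⊆ df x y) (p q : ℝ) :
    ∑ i, pairNoise x y (flipC x (F ∪ F')) p q i ^ 2
      = (4 * p ^ 2 * (ag x y).card - 8 * p * F.card + 4 * F.card)
        + (4 * q ^ 2 * (df x y).card - 8 * q * F'.card + 4 * F'.card) := by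
  rw [sum_ag_df x y, ← sum_sq_ite_sub _ _ hF, ← sum_sq_ite_sub _ _ hF']
  congr 1
  · refine Finset.sum_congr rfl fun i hi => ?_
    rw [pairNoise_flip x y hF hF' p q i, if_pos hi, mul_pow, sq (sg (x i)), sg_sq, one_mul]
  · refine Finset.sum_congr rfl fun i hi => ?_
    have h : i ∉ ag x y := fun h' => Finset.disjoint_left.1 (disj_ag_df x y) h' hi
    rw [pairNoise_flip x y hF hF' p q i, if_neg h, mul_pow, sq (sg (x i)), sg_sq, one_mul]

lemma norm_part {N a : ℝ} (ha : N = 0 → a = 0) :
    4 * (a / N) ^ 2 * N - 8 * (a / N) * a + 4 * a = 4 * (a * (N - a) / N) := by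
  by_cases h : N = 0
  · simp [h, ha h]
  · field_simp; ring

/-- Factor of the moment generating function coming from one of the two sets. -/
lemma part_mgf {n : ℕ} (S : Finset (Fin n)) (t : Fin n → ℝ)
    (ht : ∀ i, t i ∈ Set.Icc (-1 : ℝ) 1) (a : ℕ) (ha : a ≤ S.card) (l : ℝ) :
    ∑ F ∈ S.powersetCard a, exp (l * (2 * (a / S.card) * ∑ i ∈ S, t i - 2 * ∑ i ∈ F, t i))
      ≤ (S.card.choose a : ℝ) * exp (l ^ 2 * (4 * (a * (S.card - a) / S.card))) := by
  have h := subset_mgf a S t (fun i _ => ht i) ha (-2 * l)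
  have e1 : ∀ F : Finset (Fin n), exp (l * (2 * (a / S.card) * ∑ i ∈ S, t i - 2 * ∑ i ∈ F, t i))
      = exp (2 * l * (a / S.card) * ∑ i ∈ S, t i) * exp (-2 * l * ∑ i ∈ F, t i) := by
    intro F; rw [← exp_add]; congr 1; ring
  simp only [e1]
  rw [← Finset.mul_sum]
  calc exp (2 * l * (a / S.card) * ∑ i ∈ S, t i) * ∑ F ∈ S.powersetCard a, exp (-2 * l * ∑ i ∈ F, t i)
      ≤ exp (2 * l * (a / S.card) * ∑ i ∈ S, t i) * ((S.card.choose a : ℝ) *
          exp (-2 * l * a * ((∑ i ∈ S, t i) / S.card) + (-2 * l) ^ 2 * (a * (S.card - a) / S.card))) :=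
        mul_le_mul_of_nonneg_left h (exp_pos _).le
    _ = _ := by
        rw [mul_left_comm, ← exp_add]
        congr 2
        ring

/-- The exponential moment on one class of outcomes. -/
lemma class_moment {n : ℕ} (x y v : Cube n) (a b : ℕ) (ha : a ≤ (ag x y).card)
    (hb : b ≤ (df x y).card) :
    ∑ w ∈ univ.filter (fun w => cls x y w = (a, b)),
        exp (xi2 (pairNoise x y w (a / (ag x y).card) (b / (df x y).card)) v / 8)
      ≤ √2 * (univ.filter (fun w => cls x y w = (a, b))).card := by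
  set A := (ag x y).card with hA
  set D := (df x y).card with hD
  set p : ℝ := (a : ℝ) / A with hp
  set q : ℝ := (b : ℝ) / D with hq
  set N : ℝ := 4 * (a * (A - a) / A) + 4 * (b * (D - b) / D) with hN
  set s := univ.filter (fun w => cls x y w = (a, b)) with hs
  have hAa : (a : ℝ) ≤ A := by exact_mod_cast ha
  have hDb : (b : ℝ) ≤ D := by exact_mod_cast hb
  have hN0 : 0 ≤ N := by
    have h1 : (0 : ℝ) ≤ A - a := by linarith
    have h2 : (0 : ℝ) ≤ D - b := by linarith
    positivity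
  have hflip : ∀ w ∈ s, ∃ F F', F ∈ (ag x y).powersetCard a ∧ F' ∈ (df x y).powersetCard b ∧
      w = flipC x (F ∪ F') := by
    intro w hw
    simp only [hs, mem_filter, mem_univ, true_and, cls, Prod.mk.injEq] at hw
    refine ⟨ag x y ∩ fl x w, df x y ∩ fl x w, ?_, ?_, ?_⟩
    · exact mem_powersetCard.2 ⟨inter_subset_left, hw.1⟩
    · exact mem_powersetCard.2 ⟨inter_subset_left, hw.2⟩
    · rw [← Finset.union_inter_distrib_right, ag_union_df, Finset.univ_inter, flipC_fl]
  have hnorm : ∀ w ∈ s, ∑ i, pairNoise x y w p q i ^ 2 = N := by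
    intro w hw
    obtain ⟨F, F', hF, hF', rfl⟩ := hflip w hw
    rw [mem_powersetCard] at hF hF'
    rw [normsq_pairNoise x y hF.1 hF'.1, hF.2, hF'.2, ← hA, ← hD, hp, hq, norm_part, norm_part]
    · intro h
      have : D = 0 := by exact_mod_cast h
      have : b = 0 := by omega
      simp [this]
    · intro h
      have : A = 0 := by exact_mod_cast h
      have : a = 0 := by omega
      simp [this]
  -- moment generating function
  have hmgf : ∀ l : ℝ, ∑ w ∈ s, exp (l * ∑ i, pairNoise x y w p q i * sg (v i))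
      ≤ s.card * exp (l ^ 2 * N) := by
    intro l
    have hcard : (s.card : ℝ) = (A.choose a : ℝ) * (D.choose b : ℝ) := by
      have := sum_cls x y a b (fun _ => (1 : ℝ))
      simp only [Finset.sum_const, nsmul_eq_mul, mul_one, card_powersetCard] at this
      rw [hs, this]
    rw [hs, sum_cls x y a b, hcard]
    have e : ∀ F ∈ (ag x y).powersetCard a, ∀ F' ∈ (df x y).powersetCard b,
        exp (l * ∑ i, pairNoise x y (flipC x (F ∪ F')) p q i * sg (v i))
        = exp (l * (2 * (a / A) * ∑ i ∈ ag x y, sg (x i) * sg (v i)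
            - 2 * ∑ i ∈ F, sg (x i) * sg (v i)))
          * exp (l * (2 * (b / D) * ∑ i ∈ df x y, sg (x i) * sg (v i)
            - 2 * ∑ i ∈ F', sg (x i) * sg (v i))) := by
      intro F hF F' hF'
      rw [inner_pairNoise x y v (mem_powersetCard.1 hF).1 (mem_powersetCard.1 hF').1, ← exp_add]
      congr 1
      ring
    have e' : ∑ F ∈ (ag x y).powersetCard a, ∑ F' ∈ (df x y).powersetCard b,
        exp (l * ∑ i, pairNoise x y (flipC x (F ∪ F')) p q i * sg (v i))
        = (∑ F ∈ (ag x y).powersetCard a, exp (l * (2 * (a / A) * ∑ i ∈ ag x y, sg (x i) * sg (v i)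
            - 2 * ∑ i ∈ F, sg (x i) * sg (v i))))
          * ∑ F' ∈ (df x y).powersetCard b, exp (l * (2 * (b / D) * ∑ i ∈ df x y, sg (x i) * sg (v i)
            - 2 * ∑ i ∈ F', sg (x i) * sg (v i))) := by
      rw [Finset.sum_mul_sum]
      exact Finset.sum_congr rfl fun F hF => Finset.sum_congr rfl fun F' hF' => e F hF F' hF'
    rw [e']
    have m1 := part_mgf (ag x y) (fun i => sg (x i) * sg (v i)) (fun i => sg_mul_mem _ _) a ha l
    have m2 := part_mgf (df x y) (fun i => sg (x i) * sg (v i)) (fun i => sg_mul_mem _ _) b hb l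
    calc _ ≤ ((A.choose a : ℝ) * exp (l ^ 2 * (4 * (a * (A - a) / A))))
          * ((D.choose b : ℝ) * exp (l ^ 2 * (4 * (b * (D - b) / D)))) := by
          apply mul_le_mul m1 m2
          · exact Finset.sum_nonneg fun _ _ => (exp_pos _).le
          · positivity
      _ = _ := by
          rw [hN, mul_add, exp_add]; ring
  have hsq := sq_moment s (fun _ => 1)
    (fun w => (∑ i, pairNoise x y w p q i * sg (v i)) / √N) s.card (by
      intro l
      by_cases h0 : N = 0
      · have : ∀ w ∈ s, (1 : ℝ) * exp (l * ((∑ i, pairNoise x y w p q i * sg (v i)) / √N)) = 1 := by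
          intro w _; simp [h0]
        rw [Finset.sum_congr rfl this]
        simp only [sum_const, nsmul_eq_mul, mul_one]
        have : (1 : ℝ) ≤ exp (l ^ 2) := one_le_exp (sq_nonneg l)
        have hc : (0 : ℝ) ≤ s.card := Nat.cast_nonneg _
        nlinarith
      · have hNp : 0 < N := lt_of_le_of_ne hN0 (Ne.symm h0)
        have h := hmgf (l / √N)
        have e1 : (l / √N) ^ 2 * N = l ^ 2 := by
          rw [div_pow, Real.sq_sqrt hN0]; field_simp
        rw [e1] at h
        calc _ = ∑ w ∈ s, exp (l / √N * ∑ i, pairNoise x y w p q i * sg (v i)) := by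
              refine Finset.sum_congr rfl fun w _ => ?_
              rw [one_mul]; congr 1; ring
          _ ≤ _ := h)
  calc _ = ∑ w ∈ s, 1 * exp (((∑ i, pairNoise x y w p q i * sg (v i)) / √N) ^ 2 / 8) := by
        refine Finset.sum_congr rfl fun w hw => ?_
        rw [one_mul, xi2, hnorm w hw, div_pow, Real.sq_sqrt hN0]
    _ ≤ _ := hsq

end Pool.Agent.H.MP_f3079c_lc
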