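import Pool.Agent.H.MP_f3079c_lc.Step

/-!
The random process: expectations of the potentials along a run.
-/

namespace Pool.Agent.H.MP_f3079c_lc

open Finset Real

section PMFsums

variable {α β : Type*} [Fintype α] [Fintype β]

omit [Fintype β] in
lemma pmf_bind_toReal (p : PMF α) (f : α → PMF β) (b : β) :
    ((p.bind f) b).toReal = ∑ a, (p a).toReal * (f a b).toReal := by
  rw [PMF.bind_apply, tsum_fintype (L := .unconditional α), ENNReal.toReal_sum]
  · exact Finset.sum_congr rfl fun a _ => ENNReal.toReal_mul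
  · intro a _
    exact ENNReal.mul_ne_top (p.apply_ne_top a) ((f a).apply_ne_top b)

lemma pmf_bind_sum (p : PMF α) (f : α → PMF β) (F : β → ℝ) :
    ∑ b, ((p.bind f) b).toReal * F b = ∑ a, (p a).toReal * ∑ b, (f a b).toReal * F b := by
  simp only [pmf_bind_toReal, Finset.sum_mul, Finset.mul_sum]
  rw [Finset.sum_comm]
  exact Finset.sum_congr rfl fun a _ => Finset.sum_congr rfl fun b _ => by ring

lemma pmf_map_sum (p : PMF α) (g : α → β) (F : β → ℝ) :
    ∑ b, ((p.map g) b).toReal * F b = ∑ a, (p a).toReal * F (g a) := by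
  classical
  rw [PMF.map, pmf_bind_sum]
  refine Finset.sum_congr rfl fun a _ => ?_
  congr 1
  rw [Finset.sum_eq_single (g a)]
  · simp
  · intro b _ hb; simp [hb]
  · intro h; exact absurd (mem_univ _) h

end PMFsums

/-- The law of the first `t` points of a process with transition laws `L`. -/
noncomputable def runL {n : ℕ} (L : (t : ℕ) → (Fin t → Cube n) → PMF (Cube n)) :
    (t : ℕ) → PMF (Fin t → Cube n)
  | 0 => PMF.pure Fin.elim0
  | t + 1 => (runL L t).bind fun x => (L t x).map fun y => (Fin.snoc x y : Fin (t + 1) → Cube n)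

/-- expectation -/
noncomputable def EE {n : ℕ} (L : (t : ℕ) → (Fin t → Cube n) → PMF (Cube n)) (t : ℕ)
    (F : (Fin t → Cube n) → ℝ) : ℝ := ∑ x, (runL L t x).toReal * F x

lemma EE_succ {n : ℕ} (L : (t : ℕ) → (Fin t → Cube n) → PMF (Cube n)) (t : ℕ)
    (F : (Fin (t + 1) → Cube n) → ℝ) :
    EE L (t + 1) F = EE L t fun x => ∑ y, (L t x y).toReal * F (Fin.snoc x y) := by
  rw [EE, runL, pmf_bind_sum, EE]
  exact Finset.sum_congr rfl fun x _ => by rw [pmf_map_sum]

lemma EE_mono {n : ℕ} (L : (t : ℕ) → (Fin t → Cube n) → PMF (Cube n)) (t : ℕ)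
    {F G : (Fin t → Cube n) → ℝ} (h : ∀ x, F x ≤ G x) : EE L t F ≤ EE L t G :=
  Finset.sum_le_sum fun x _ => mul_le_mul_of_nonneg_left (h x) ENNReal.toReal_nonneg

lemma EE_const {n : ℕ} (L : (t : ℕ) → (Fin t → Cube n) → PMF (Cube n)) (t : ℕ) (c : ℝ) :
    EE L t (fun _ => c) = c := by
  rw [EE, ← Finset.sum_mul, pmf_sum_toReal, one_mul]

lemma EE_add {n : ℕ} (L : (t : ℕ) → (Fin t → Cube n) → PMF (Cube n)) (t : ℕ)
    (F G : (Fin t → Cube n) → ℝ) : EE L t (fun x => F x + G x) = EE L t F + EE L t G := by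
  simp only [EE, mul_add, Finset.sum_add_distrib]

lemma EE_mul {n : ℕ} (L : (t : ℕ) → (Fin t → Cube n) → PMF (Cube n)) (t : ℕ) (c : ℝ)
    (F : (Fin t → Cube n) → ℝ) : EE L t (fun x => c * F x) = c * EE L t F := by
  rw [EE, EE, Finset.mul_sum]
  exact Finset.sum_congr rfl fun x _ => by ring

section Potential

variable {n : ℕ} (κ : (t : ℕ) → (Fin t → Cube n) → Cube n → Fin t → ℝ) (z : Cube n)

/-- the noise of the last point -/
noncomputable def lastEta (t : ℕ) (x : Fin (t + 1) → Cube n) : Fin n → ℝ :=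
  eta (Fin.init x) (κ t (Fin.init x) (x (Fin.last t))) (x (Fin.last t))

/-- the potentials `P_j` -/
noncomputable def PP : (t : ℕ) → (Fin t → Cube n) → Fin t → ℝ
  | 0, _ => Fin.elim0
  | t + 1, x => Fin.snoc (fun j => PP t (Fin.init x) j
      + xi2 (lastEta κ t x) (Fin.init x j) - 9) 0

/-- the accumulated cost `R` -/
noncomputable def RR : (t : ℕ) → (Fin t → Cube n) → ℝ
  | 0, _ => 0
  | t + 1, x => RR t (Fin.init x) + 2 * xi2 (lastEta κ t x) z + 2 * 9
      + 16 * ∑ j, exp ((PP κ t (Fin.init x) j + xi2 (lastEta κ t x) (Fin.init x j) - 9) / 8)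

lemma lastEta_snoc (t : ℕ) (x : Fin t → Cube n) (y : Cube n) :
    lastEta κ t (Fin.snoc x y) = eta x (κ t x y) y := by
  simp [lastEta]

lemma RR_snoc_ge (t : ℕ) (x : Fin t → Cube n) (y : Cube n) :
    RR κ z t x ≤ RR κ z (t + 1) (Fin.snoc x y) := by
  have h1 := xi2_nonneg (lastEta κ t (Fin.snoc x y)) z
  have h2 : 0 ≤ ∑ j, exp ((PP κ t x j + xi2 (lastEta κ t (Fin.snoc x y)) (x j) - 9) / 8) :=
    Finset.sum_nonneg fun _ _ => (exp_pos _).le
  simp only [RR, Fin.init_snoc]
  linarith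

theorem inv_all (hκ : ∀ t x y, ∑ j, |κ t x y j| ≤ 1) :
    ∀ (t : ℕ) (x : Fin t → Cube n), Inv z x (PP κ t x) (RR κ z t x) := by
  intro t
  induction t with
  | zero =>
    intro x θ Θ _ _
    have : ∀ i, (sg (z i)) ^ 2 = 1 := fun i => by rw [sq, sg_sq]
    simp [RR, this]
  | succ t ih =>
    intro x
    have h := (ih (Fin.init x)).step (x (Fin.last t)) (κ t (Fin.init x) (x (Fin.last t)))
      (hκ _ _ _) 9 (by norm_num)
    rw [Fin.snoc_init_self] at h
    exact h

/-- If the last point is the optimum then the accumulated cost is at least `n`. -/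
lemma RR_of_hit (hκ : ∀ t x y, ∑ j, |κ t x y j| ≤ 1) (t : ℕ) (x : Fin t → Cube n) :
    (n : ℝ) ≤ RR κ z (t + 1) (Fin.snoc x z) := by
  have h := inv_all κ z hκ (t + 1) (Fin.snoc x z) (fun j => if j = Fin.last t then 1 else 0)
    (fun j => if j = Fin.last t then 1 else 0) (fun j => by split_ifs <;> simp)
    (by simp)
  simp only [ite_mul, one_mul, zero_mul, Finset.sum_ite_eq', mem_univ, if_true,
    Fin.snoc_last, sub_self] at h
  have e : PP κ (t + 1) (Fin.snoc x z) (Fin.last t) = 0 := by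
    simp [PP]
  rw [e] at h
  simpa using h

/-- If some point is the optimum then the accumulated cost is at least `n`. -/
lemma RR_of_exists (hκ : ∀ t x y, ∑ j, |κ t x y j| ≤ 1) :
    ∀ (t : ℕ) (x : Fin t → Cube n), (∃ j, x j = z) → (n : ℝ) ≤ RR κ z t x := by
  intro t
  induction t with
  | zero => rintro x ⟨j, -⟩; exact j.elim0
  | succ t ih =>
    rintro x ⟨j, hj⟩
    rw [← Fin.snoc_init_self x]
    rcases Fin.eq_castSucc_or_eq_last j with ⟨j, rfl⟩ | rfl
    · exact (ih (Fin.init x) ⟨j, hj⟩).trans (RR_snoc_ge κ z t _ _)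
    · rw [hj]; exact RR_of_hit κ z hκ t _

lemma RR_nonneg (t : ℕ) (x : Fin t → Cube n) : 0 ≤ RR κ z t x := by
  induction t with
  | zero => simp [RR]
  | succ t ih =>
    rw [← Fin.snoc_init_self x]
    exact (ih (Fin.init x)).trans (RR_snoc_ge κ z t _ _)

end Potential

lemma sqrt_two_exp : √2 * exp (-9 / 8) ≤ 1 / 2 := by
  have h1 : √2 ≤ 1.4143 := by
    rw [Real.sqrt_le_left (by norm_num)]; norm_num
  have h2 : (3.05 : ℝ) ≤ exp (9 / 8) := by
    have e1 : exp (9 / 8) = exp 1 * exp (1 / 8) := by rw [← exp_add]; norm_num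
    have e2 := Real.exp_one_gt_d9
    have e3 : (1 : ℝ) + 1 / 8 ≤ exp (1 / 8) := by linarith [add_one_le_exp (1 / 8 : ℝ)]
    rw [e1]
    nlinarith [exp_pos (1 : ℝ)]
  have h3 : exp (-9 / 8) * exp (9 / 8) = 1 := by rw [← exp_add]; norm_num
  have h4 : 0 < exp (-9 / 8 : ℝ) := exp_pos _
  have h5 : 0 ≤ √2 := Real.sqrt_nonneg 2
  have h6 : exp (-9 / 8 : ℝ) ≤ 0.328 := by nlinarith
  nlinarith

section Expect

variable {n : ℕ} {L : (t : ℕ) → (Fin t → Cube n) → PMF (Cube n)}
  {κ : (t : ℕ) → (Fin t → Cube n) → Cube n → Fin t → ℝ}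

/-- expected sum of the exponential potentials after one more query, given the past -/
lemma step_exp (hmom : ∀ t x v, ∑ y, (L t x y).toReal * exp (xi2 (eta x (κ t x y) y) v / 8) ≤ √2)
    (t : ℕ) (x : Fin t → Cube n) :
    ∑ y, (L t x y).toReal * ∑ j, exp ((PP κ t x j + xi2 (eta x (κ t x y) y) (x j) - 9) / 8)
      ≤ (1 / 2) * ∑ j, exp (PP κ t x j / 8) := by
  have e : ∀ y j, exp ((PP κ t x j + xi2 (eta x (κ t x y) y) (x j) - 9) / 8)
      = exp (PP κ t x j / 8) * exp (-9 / 8) * exp (xi2 (eta x (κ t x y) y) (x j) / 8) := by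
    intro y j
    rw [← exp_add, ← exp_add]; congr 1; ring
  simp only [e, Finset.mul_sum]
  rw [Finset.sum_comm]
  refine Finset.sum_le_sum fun j _ => ?_
  have h1 : ∑ y, (L t x y).toReal * (exp (PP κ t x j / 8) * exp (-9 / 8)
      * exp (xi2 (eta x (κ t x y) y) (x j) / 8))
      = exp (PP κ t x j / 8) * exp (-9 / 8) *
        ∑ y, (L t x y).toReal * exp (xi2 (eta x (κ t x y) y) (x j) / 8) := by
    rw [Finset.mul_sum]
    exact Finset.sum_congr rfl fun y _ => by ring
  rw [h1]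
  have h2 := hmom t x (x j)
  have h3 : 0 < exp (PP κ t x j / 8) := exp_pos _
  have h4 : 0 < exp (-9 / 8 : ℝ) := exp_pos _
  have h5 := sqrt_two_exp
  calc exp (PP κ t x j / 8) * exp (-9 / 8) *
        ∑ y, (L t x y).toReal * exp (xi2 (eta x (κ t x y) y) (x j) / 8)
      ≤ exp (PP κ t x j / 8) * exp (-9 / 8) * √2 :=
        mul_le_mul_of_nonneg_left h2 (by positivity)
    _ = exp (PP κ t x j / 8) * (√2 * exp (-9 / 8)) := by ring
    _ ≤ exp (PP κ t x j / 8) * (1 / 2) := mul_le_mul_of_nonneg_left h5 h3.le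
    _ = _ := by ring

lemma EE_pot (hmom : ∀ t x v, ∑ y, (L t x y).toReal * exp (xi2 (eta x (κ t x y) y) v / 8) ≤ √2) :
    ∀ t, EE L t (fun x => ∑ j, exp (PP κ t x j / 8)) ≤ 2 := by
  intro t
  induction t with
  | zero => simp [EE]
  | succ t ih =>
    rw [EE_succ]
    have h1 : ∀ x : Fin t → Cube n, ∑ y, (L t x y).toReal *
        ∑ j, exp (PP κ (t + 1) (Fin.snoc x y) j / 8)
        ≤ (1 / 2) * (∑ j, exp (PP κ t x j / 8)) + 1 := by
      intro x
      have e : ∀ y, ∑ j, exp (PP κ (t + 1) (Fin.snoc x y) j / 8)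
          = (∑ j, exp ((PP κ t x j + xi2 (eta x (κ t x y) y) (x j) - 9) / 8)) + 1 := by
        intro y
        rw [Fin.sum_univ_castSucc]
        simp only [PP, lastEta_snoc, Fin.init_snoc, Fin.snoc_castSucc, Fin.snoc_last]
        simp
      simp only [e, mul_add, Finset.sum_add_distrib, mul_one, pmf_sum_toReal]
      have := step_exp hmom t x
      linarith
    refine (EE_mono L t h1).trans ?_
    rw [EE_add, EE_mul, EE_const]
    linarith

lemma exp_xi_first (hmom : ∀ t x v, ∑ y, (L t x y).toReal *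
    exp (xi2 (eta x (κ t x y) y) v / 8) ≤ √2) (t : ℕ) (x : Fin t → Cube n) (v : Cube n) :
    ∑ y, (L t x y).toReal * xi2 (eta x (κ t x y) y) v ≤ 8 * (√2 - 1) := by
  have h1 : ∀ y, (L t x y).toReal * xi2 (eta x (κ t x y) y) v
      ≤ 8 * ((L t x y).toReal * exp (xi2 (eta x (κ t x y) y) v / 8) - (L t x y).toReal) := by
    intro y
    have h := add_one_le_exp (xi2 (eta x (κ t x y) y) v / 8)
    have h0 : 0 ≤ (L t x y).toReal := ENNReal.toReal_nonneg
    nlinarith
  calc _ ≤ ∑ y, 8 * ((L t x y).toReal * exp (xi2 (eta x (κ t x y) y) v / 8) - (L t x y).toReal) :=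
        Finset.sum_le_sum fun y _ => h1 y
    _ = 8 * (∑ y, (L t x y).toReal * exp (xi2 (eta x (κ t x y) y) v / 8)
          - ∑ y, (L t x y).toReal) := by rw [← Finset.mul_sum, Finset.sum_sub_distrib]
    _ ≤ 8 * (√2 - 1) := by rw [pmf_sum_toReal]; linarith [hmom t x v]

/-- The expected accumulated cost grows at most linearly. -/
lemma EE_cost (hmom : ∀ t x v, ∑ y, (L t x y).toReal * exp (xi2 (eta x (κ t x y) y) v / 8) ≤ √2)
    (z : Cube n) : ∀ t, EE L t (RR κ z t) ≤ 41 * t := by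
  intro t
  induction t with
  | zero => simp [EE, RR]
  | succ t ih =>
    rw [EE_succ]
    have h1 : ∀ x : Fin t → Cube n, ∑ y, (L t x y).toReal * RR κ z (t + 1) (Fin.snoc x y)
        ≤ RR κ z t x + (2 * (8 * (√2 - 1)) + 18) + 8 * ∑ j, exp (PP κ t x j / 8) := by
      intro x
      have e : ∀ y, RR κ z (t + 1) (Fin.snoc x y) = RR κ z t x + 2 * xi2 (eta x (κ t x y) y) z + 18
          + 16 * ∑ j, exp ((PP κ t x j + xi2 (eta x (κ t x y) y) (x j) - 9) / 8) := by
        intro y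
        simp only [RR, lastEta_snoc, Fin.init_snoc]
        norm_num
      have e2 : ∑ y, (L t x y).toReal * RR κ z (t + 1) (Fin.snoc x y)
          = (RR κ z t x + 18) * ∑ y, (L t x y).toReal
            + 2 * ∑ y, (L t x y).toReal * xi2 (eta x (κ t x y) y) z
            + 16 * ∑ y, (L t x y).toReal *
              ∑ j, exp ((PP κ t x j + xi2 (eta x (κ t x y) y) (x j) - 9) / 8) := by
        rw [Finset.mul_sum, Finset.mul_sum, Finset.mul_sum, ← Finset.sum_add_distrib,
          ← Finset.sum_add_distrib]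
        exact Finset.sum_congr rfl fun y _ => by rw [e y]; ring
      rw [e2, pmf_sum_toReal]
      have a1 := exp_xi_first hmom t x z
      have a2 := step_exp hmom t x
      linarith
    refine (EE_mono L t h1).trans ?_
    rw [EE_add, EE_add, EE_mul, EE_const]
    have h2 := EE_pot (κ := κ) hmom t
    have h3 : √2 ≤ 1.4143 := by
      rw [Real.sqrt_le_left (by norm_num)]; norm_num
    push_cast
    have e4 : EE L t (fun x => RR κ z t x) = EE L t (RR κ z t) := rfl
    rw [e4]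
    linarith

end Expect

end Pool.Agent.H.MP_f3079c_lc
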