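import Pool.Agent.H.MP_f3079c_lc.Process

/-!
Sanity checks for the definitions: a nullary unbiased operator is the uniform distribution, and
pure random search is a `k`-ary unbiased algorithm with expected time at most `2^n` on every
`OM_z`; in particular `B(n) ≤ 2^n` is finite.
-/

namespace Pool.Agent.H.MP_f3079c_lc

open Finset MeasureTheory
open scoped ENNReal

/-- The uniform distribution as a `j`-ary unbiased operator. -/
noncomputable def uniformOperator (n j : ℕ) : UnbiasedOperator n j where
  dist _ := PMF.uniformOfFintype (Cube n)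
  xor_invariant x w y := by simp [PMF.uniformOfFintype_apply]
  perm_invariant x σ y := by simp [PMF.uniformOfFintype_apply]

/-- A nullary unbiased operator is the uniform distribution. -/
theorem nullary_uniform {n : ℕ} (D : UnbiasedOperator n 0) (X : Fin 0 → Cube n) :
    D.dist X = PMF.uniformOfFintype (Cube n) := by
  ext y
  have hconst : ∀ y', D.dist X y' = D.dist X y := fun y' => nullary_const D X y' y
  have hsum := (D.dist X).tsum_coe
  rw [tsum_fintype (L := .unconditional _), Finset.sum_congr rfl fun y' _ => hconst y',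
    Finset.sum_const, nsmul_eq_mul] at hsum
  rw [PMF.uniformOfFintype_apply]
  exact ENNReal.eq_inv_of_mul_eq_one_left (by rw [mul_comm]; simpa using hsum)

/-- Pure random search. -/
noncomputable def randomSearch (n k : ℕ) : UnbiasedAlgorithm n k where
  Seed := Unit
  measurableSpace := ⊤
  seedLaw := @Measure.dirac Unit ⊤ ()
  isProbabilityMeasure := inferInstance
  choice _ _ _ := ⟨0, Nat.zero_le k, Fin.elim0, uniformOperator n 0⟩
  measurable_choice _ _ _ _ := measurable_const

lemma om_max {n : ℕ} (z : Cube n) : IsMaximiser (OM z) z := by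
  intro y
  unfold OM
  have : (univ.filter fun i => y i = z i).card ≤ (univ.filter fun i => z i = z i).card := by
    apply Finset.card_le_card
    intro i _
    simp
  exact_mod_cast this

lemma run_succ {n k : ℕ} (A : UnbiasedAlgorithm n k) (s : A.Seed) (f : Cube n → ℝ) (t : ℕ) :
    A.run s f (t + 1) = (A.run s f t).bind fun x =>
      ((A.choice s t fun i => f (x i)).law x).map fun y =>
        (Fin.snoc x y : Fin (t + 1) → Cube n) := rfl

theorem randomSearch_tail {n k : ℕ} (s : (randomSearch n k).Seed) (z : Cube n) (t : ℕ) :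
    ((randomSearch n k).run s (OM z) t).toOuterMeasure {x | ∀ i, ¬ IsMaximiser (OM z) (x i)}
      ≤ (1 - (2 ^ n : ℝ≥0∞)⁻¹) ^ t := by
  induction t with
  | zero =>
    simp only [pow_zero]
    calc _ ≤ ((randomSearch n k).run s (OM z) 0).toOuterMeasure Set.univ :=
          ((randomSearch n k).run s (OM z) 0).toOuterMeasure.mono (Set.subset_univ _)
      _ ≤ 1 := by
          rw [PMF.toOuterMeasure_apply, Set.indicator_univ, PMF.tsum_coe]
  | succ t ih =>
    rw [run_succ, PMF.toOuterMeasure_bind_apply]
    have hx : ∀ x : Fin t → Cube n,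
        (PMF.map (fun y => (Fin.snoc x y : Fin (t + 1) → Cube n))
          (((randomSearch n k).choice s t fun i => OM z (x i)).law x)).toOuterMeasure
            {x | ∀ i, ¬ IsMaximiser (OM z) (x i)}
        ≤ Set.indicator {x : Fin t → Cube n | ∀ i, ¬ IsMaximiser (OM z) (x i)}
            (fun _ => 1 - (2 ^ n : ℝ≥0∞)⁻¹) x := by
      intro x
      rw [PMF.toOuterMeasure_map_apply]
      by_cases hxm : ∀ i, ¬ IsMaximiser (OM z) (x i)
      · rw [Set.indicator_of_mem (show x ∈ {x : Fin t → Cube n | ∀ i, ¬ IsMaximiser (OM z) (x i)} from hxm)]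
        have hsub : ((fun y => (Fin.snoc x y : Fin (t + 1) → Cube n)) ⁻¹'
            {x | ∀ i, ¬ IsMaximiser (OM z) (x i)}) ⊆ {z}ᶜ := by
          intro y hy hyz
          have hyz' : y = z := hyz
          subst hyz'
          have h := hy (Fin.last t)
          simp only [Fin.snoc_last] at h
          exact h (om_max y)
        have hlaw : (((randomSearch n k).choice s t fun i => OM z (x i)).law x)
            = PMF.uniformOfFintype (Cube n) := rfl
        rw [hlaw]
        calc (PMF.uniformOfFintype (Cube n)).toOuterMeasure _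
            ≤ (PMF.uniformOfFintype (Cube n)).toOuterMeasure {z}ᶜ :=
              (PMF.uniformOfFintype (Cube n)).toOuterMeasure.mono hsub
          _ ≤ 1 - (2 ^ n : ℝ≥0∞)⁻¹ := by
              let _ : MeasurableSpace (Cube n) := ⊤
              have hm : ((PMF.uniformOfFintype (Cube n)).toMeasure : Measure (Cube n)) {z}ᶜ
                  = 1 - (2 ^ n : ℝ≥0∞)⁻¹ := by
                rw [prob_compl_eq_one_sub (MeasurableSet.singleton z),
                  PMF.toMeasure_apply_singleton _ _ (MeasurableSet.singleton z)]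
                simp [PMF.uniformOfFintype_apply]
              rw [← hm]
              exact (PMF.toOuterMeasure_apply_le_toMeasure_apply _ _)
      · rw [Set.indicator_of_notMem (show x ∉ {x : Fin t → Cube n | ∀ i, ¬ IsMaximiser (OM z) (x i)} from hxm)]
        have hem : ((fun y => (Fin.snoc x y : Fin (t + 1) → Cube n)) ⁻¹'
            {x | ∀ i, ¬ IsMaximiser (OM z) (x i)}) = ∅ := by
          ext y
          simp only [Set.mem_preimage, Set.mem_ofPred_eq, Set.mem_empty_iff_false, iff_false]
          intro h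
          apply hxm
          intro i
          have := h i.castSucc
          simpa [Fin.snoc_castSucc] using this
        rw [hem]
        simp
    calc ∑' x, (randomSearch n k).run s (OM z) t x * _
        ≤ ∑' x, (randomSearch n k).run s (OM z) t x *
            Set.indicator {x : Fin t → Cube n | ∀ i, ¬ IsMaximiser (OM z) (x i)}
            (fun _ => 1 - (2 ^ n : ℝ≥0∞)⁻¹) x :=
          ENNReal.tsum_le_tsum fun x => mul_le_mul_right (hx x) _
      _ = ∑' x, Set.indicator {x : Fin t → Cube n | ∀ i, ¬ IsMaximiser (OM z) (x i)}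
            ((randomSearch n k).run s (OM z) t) x * (1 - (2 ^ n : ℝ≥0∞)⁻¹) := by
          refine tsum_congr fun x => ?_
          by_cases h : x ∈ {x : Fin t → Cube n | ∀ i, ¬ IsMaximiser (OM z) (x i)}
          · rw [Set.indicator_of_mem h, Set.indicator_of_mem h]
          · rw [Set.indicator_of_notMem h, Set.indicator_of_notMem h]; simp
      _ = ((randomSearch n k).run s (OM z) t).toOuterMeasure
            {x | ∀ i, ¬ IsMaximiser (OM z) (x i)} * (1 - (2 ^ n : ℝ≥0∞)⁻¹) := by
          rw [ENNReal.tsum_mul_right, PMF.toOuterMeasure_apply]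
      _ ≤ (1 - (2 ^ n : ℝ≥0∞)⁻¹) ^ t * (1 - (2 ^ n : ℝ≥0∞)⁻¹) := mul_le_mul_left ih _
      _ = _ := (pow_succ _ _).symm

/-- `B(n)` is finite: it is at most `2^n`. -/
theorem B_le (n : ℕ) : B n ≤ 2 ^ n := by
  refine (iInf_le _ (randomSearch n 2)).trans (iSup₂_le ?_)
  rintro f ⟨z, rfl⟩
  have h1 : ∀ s : (randomSearch n 2).Seed, ∑' t : ℕ, ((randomSearch n 2).run s (OM z) t).toOuterMeasure
      {x | ∀ i, ¬ IsMaximiser (OM z) (x i)} ≤ 2 ^ n := by
    intro s
    calc _ ≤ ∑' t : ℕ, (1 - (2 ^ n : ℝ≥0∞)⁻¹) ^ t :=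
          ENNReal.tsum_le_tsum fun t => randomSearch_tail s z t
      _ = (1 - (1 - (2 ^ n : ℝ≥0∞)⁻¹))⁻¹ := ENNReal.tsum_geometric _
      _ ≤ 2 ^ n := by
          have h1 : (2 ^ n : ℝ≥0∞)⁻¹ ≤ 1 := by
            rw [ENNReal.inv_le_one]; exact one_le_pow₀ one_le_two
          rw [ENNReal.sub_sub_cancel ENNReal.one_ne_top h1, inv_inv]
  unfold UnbiasedAlgorithm.expectedTime
  calc _ ≤ ∫⁻ _ : (randomSearch n 2).Seed, (2 ^ n : ℝ≥0∞) ∂(@Measure.dirac Unit ⊤ ()) :=
        lintegral_mono fun s => h1 s
    _ = 2 ^ n * (@Measure.dirac Unit ⊤ ()) Set.univ := @lintegral_const Unit ⊤ _ _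
    _ = 2 ^ n := by rw [@measure_univ Unit ⊤ _ _, mul_one]

end Pool.Agent.H.MP_f3079c_lc
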