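import Pool.Agent.H.MP_f3079c_lc.Good

/-!
The deterministic inequality, one query at a time.
-/

namespace Pool.Agent.H.MP_f3079c_lc

open Finset Real

/-- The invariant: for every signed combination `W` of the points, dominated by weights `Θ` of
total mass at most one, `‖z‖² - ‖z - W‖²` is bounded through the potentials `P`, `R`. -/
def Inv {n t : ℕ} (z : Cube n) (x : Fin t → Cube n) (P : Fin t → ℝ) (R : ℝ) : Prop :=
  ∀ θ Θ : Fin t → ℝ, (∀ j, |θ j| ≤ Θ j) → ∑ j, Θ j ≤ 1 →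
    (n : ℝ) - ∑ i, (sg (z i) - ∑ j, θ j * sg (x j i)) ^ 2 ≤ 2 * ∑ j, Θ j * P j + R

lemma weighted_cs {t : ℕ} (θ Θ s : Fin t → ℝ) (h : ∀ j, |θ j| ≤ Θ j) (h1 : ∑ j, Θ j ≤ 1) :
    (∑ j, θ j * s j) ^ 2 ≤ ∑ j, Θ j * s j ^ 2 := by
  have hΘ : ∀ j, 0 ≤ Θ j := fun j => (abs_nonneg _).trans (h j)
  have a1 : |∑ j, θ j * s j| ≤ ∑ j, Θ j * |s j| := by
    refine (Finset.abs_sum_le_sum_abs _ _).trans (Finset.sum_le_sum fun j _ => ?_)
    rw [abs_mul]
    exact mul_le_mul_of_nonneg_right (h j) (abs_nonneg _)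
  have a2 : (∑ j, Θ j * |s j|) ^ 2 ≤ (∑ j, Θ j) * ∑ j, Θ j * s j ^ 2 := by
    apply Finset.sum_sq_le_sum_mul_sum_of_sq_le_mul
    · intro j _; exact hΘ j
    · intro j _; exact mul_nonneg (hΘ j) (sq_nonneg _)
    · intro j _; apply le_of_eq; rw [mul_pow, sq_abs]; ring
  have a3 : 0 ≤ ∑ j, Θ j * s j ^ 2 :=
    Finset.sum_nonneg fun j _ => mul_nonneg (hΘ j) (sq_nonneg _)
  calc (∑ j, θ j * s j) ^ 2 = |∑ j, θ j * s j| ^ 2 := (sq_abs _).symm
    _ ≤ (∑ j, Θ j * |s j|) ^ 2 := pow_le_pow_left₀ (abs_nonneg _) a1 2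
    _ ≤ (∑ j, Θ j) * ∑ j, Θ j * s j ^ 2 := a2
    _ ≤ 1 * ∑ j, Θ j * s j ^ 2 := mul_le_mul_of_nonneg_right h1 a3
    _ = _ := one_mul _

lemma quad_bound {n : ℕ} (e u : Fin n → ℝ) (c : ℝ) :
    2 * c * ∑ i, e i * u i - c ^ 2 * ∑ i, e i ^ 2 ≤ (∑ i, e i * u i) ^ 2 / ∑ i, e i ^ 2 := by
  by_cases h : ∑ i, e i ^ 2 = 0
  · have he : ∀ i, e i = 0 := by
      intro i
      have := (Finset.sum_eq_zero_iff_of_nonneg (fun i _ => sq_nonneg (e i))).1 h i (mem_univ i)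
      simpa using this
    simp [he]
  · have hp : 0 < ∑ i, e i ^ 2 :=
      lt_of_le_of_ne (Finset.sum_nonneg fun _ _ => sq_nonneg _) (Ne.symm h)
    rw [le_div_iff₀ hp]
    nlinarith [sq_nonneg (∑ i, e i * u i - c * ∑ i, e i ^ 2)]

lemma mass_exp {w Q : ℝ} (h0 : 0 ≤ w) (h1 : w ≤ 1) : w * Q ≤ 8 * exp (Q / 8) := by
  have h2 : Q / 8 ≤ exp (Q / 8) := by linarith [add_one_le_exp (Q / 8)]
  have h3 : 0 < exp (Q / 8) := exp_pos _
  by_cases hQ : 0 ≤ Q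
  · nlinarith
  · have hQ' : Q < 0 := not_le.1 hQ
    nlinarith

/-- One step of the deterministic inequality. -/
theorem Inv.step {n t : ℕ} {z : Cube n} {x : Fin t → Cube n} {P : Fin t → ℝ} {R : ℝ}
    (h : Inv z x P R) (y : Cube n) (κ : Fin t → ℝ) (hκ : ∑ j, |κ j| ≤ 1) (C : ℝ) (hC : 0 ≤ C) :
    Inv z (Fin.snoc x y : Fin (t + 1) → Cube n)
      (Fin.snoc (fun j => P j + xi2 (eta x κ y) (x j) - C) 0 : Fin (t + 1) → ℝ)
      (R + 2 * xi2 (eta x κ y) z + 2 * C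
        + 16 * ∑ j, exp ((P j + xi2 (eta x κ y) (x j) - C) / 8)) := by
  intro θ Θ hθ hΘ
  have hΘ0 : ∀ j, 0 ≤ Θ j := fun j => (abs_nonneg _).trans (hθ j)
  rw [Fin.sum_univ_castSucc] at hΘ
  set e := eta x κ y with he
  set c := θ (Fin.last t) with hc
  set cc := Θ (Fin.last t) with hcc
  have hcc0 : 0 ≤ cc := hΘ0 _
  have hccc : |c| ≤ cc := hθ _
  set Q : Fin t → ℝ := fun j => P j + xi2 e (x j) - C with hQ
  set θ' : Fin t → ℝ := fun j => θ j.castSucc + c * κ j with hθ'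
  set Θ' : Fin t → ℝ := fun j => Θ j.castSucc + cc * |κ j| with hΘ'
  have d1 : ∀ j, |θ' j| ≤ Θ' j := by
    intro j
    refine (abs_add_le _ _).trans (add_le_add (hθ _) ?_)
    rw [abs_mul]
    exact mul_le_mul_of_nonneg_right hccc (abs_nonneg _)
  have hΘ'sum : ∑ j, Θ' j = ∑ j : Fin t, Θ j.castSucc + cc * ∑ j, |κ j| := by
    rw [hΘ', Finset.sum_add_distrib, Finset.mul_sum]
  have d2 : ∑ j, Θ' j ≤ 1 := by
    rw [hΘ'sum]
    have : cc * ∑ j, |κ j| ≤ cc * 1 := mul_le_mul_of_nonneg_left hκ hcc0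
    linarith
  have hΘ'0 : ∀ j, 0 ≤ Θ' j := fun j => (abs_nonneg _).trans (d1 j)
  have ih := h θ' Θ' d1 d2
  set u : Fin n → ℝ := fun i => sg (z i) - ∑ j, θ' j * sg (x j i) with hu
  have hnew : ∀ i, sg (z i) - ∑ j : Fin (t + 1), θ j * sg ((Fin.snoc x y : Fin (t + 1) → Cube n) j i)
      = u i - c * e i := by
    intro i
    rw [Fin.sum_univ_castSucc]
    simp only [Fin.snoc_castSucc, Fin.snoc_last, hu, he, eta, hθ']
    have : ∑ j : Fin t, (θ j.castSucc + c * κ j) * sg (x j i)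
        = ∑ j : Fin t, θ j.castSucc * sg (x j i) + c * ∑ j, κ j * sg (x j i) := by
      rw [Finset.mul_sum, ← Finset.sum_add_distrib]
      exact Finset.sum_congr rfl fun j _ => by ring
    rw [this]
    ring
  have hexp : ∑ i, (sg (z i) - ∑ j : Fin (t + 1), θ j * sg ((Fin.snoc x y : Fin (t + 1) → Cube n) j i)) ^ 2
      = ∑ i, u i ^ 2 - (2 * c * ∑ i, e i * u i - c ^ 2 * ∑ i, e i ^ 2) := by
    rw [Finset.sum_congr rfl fun i _ => by rw [hnew i]]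
    rw [Finset.mul_sum, Finset.mul_sum, ← Finset.sum_sub_distrib, ← Finset.sum_sub_distrib]
    exact Finset.sum_congr rfl fun i _ => by ring
  have hq := quad_bound e u c
  -- split the inner product
  have hin : ∑ i, e i * u i = ∑ i, e i * sg (z i) - ∑ j, θ' j * ∑ i, e i * sg (x j i) := by
    simp only [hu, mul_sub, Finset.sum_sub_distrib]
    congr 1
    simp only [Finset.mul_sum]
    rw [Finset.sum_comm]
    exact Finset.sum_congr rfl fun i _ => Finset.sum_congr rfl fun j _ => by ring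
  have hN0 : 0 ≤ ∑ i, e i ^ 2 := Finset.sum_nonneg fun _ _ => sq_nonneg _
  have hcs := weighted_cs θ' Θ' (fun j => ∑ i, e i * sg (x j i)) d1 d2
  have hsq : (∑ i, e i * u i) ^ 2 / ∑ i, e i ^ 2 ≤ 2 * xi2 e z + 2 * ∑ j, Θ' j * xi2 e (x j) := by
    have s1 : (∑ i, e i * u i) ^ 2 ≤ 2 * (∑ i, e i * sg (z i)) ^ 2
        + 2 * ∑ j, Θ' j * (∑ i, e i * sg (x j i)) ^ 2 := by
      rw [hin]
      nlinarith [sq_nonneg (∑ i, e i * sg (z i) + ∑ j, θ' j * ∑ i, e i * sg (x j i))]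
    have s2 : 2 * xi2 e z + 2 * ∑ j, Θ' j * xi2 e (x j)
        = (2 * (∑ i, e i * sg (z i)) ^ 2 + 2 * ∑ j, Θ' j * (∑ i, e i * sg (x j i)) ^ 2)
          / ∑ i, e i ^ 2 := by
      simp only [xi2]
      rw [add_div, mul_div_assoc, mul_div_assoc, Finset.sum_div]
      congr 2
      exact Finset.sum_congr rfl fun j _ => by rw [mul_div_assoc]
    rw [s2]
    exact div_le_div_of_nonneg_right s1 hN0
  -- final bookkeeping
  have hfin : ∑ j, Θ' j * P j + ∑ j, Θ' j * xi2 e (x j)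
      = ∑ j : Fin t, Θ j.castSucc * Q j + cc * ∑ j, |κ j| * Q j + C * ∑ j, Θ' j := by
    rw [Finset.mul_sum, Finset.mul_sum, ← Finset.sum_add_distrib, ← Finset.sum_add_distrib,
      ← Finset.sum_add_distrib]
    exact Finset.sum_congr rfl fun j _ => by simp only [hQ, hΘ']; ring
  have hmass : cc * ∑ j, |κ j| * Q j ≤ 8 * ∑ j, exp (Q j / 8) := by
    rw [Finset.mul_sum, Finset.mul_sum]
    refine Finset.sum_le_sum fun j _ => ?_
    rw [← mul_assoc]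
    apply mass_exp
    · exact mul_nonneg hcc0 (abs_nonneg _)
    · have hcc1 : cc ≤ 1 := by
        have : 0 ≤ ∑ j : Fin t, Θ j.castSucc := Finset.sum_nonneg fun j _ => hΘ0 _
        linarith
      have hk : |κ j| ≤ 1 :=
        (Finset.single_le_sum (f := fun j => |κ j|) (fun j _ => abs_nonneg _) (mem_univ j)).trans hκ
      calc cc * |κ j| ≤ 1 * 1 := mul_le_mul hcc1 hk (abs_nonneg _) zero_le_one
        _ = 1 := one_mul 1
  have hCs : C * ∑ j, Θ' j ≤ C := by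
    calc C * ∑ j, Θ' j ≤ C * 1 := mul_le_mul_of_nonneg_left d2 hC
      _ = C := mul_one C
  rw [hexp, Fin.sum_univ_castSucc]
  simp only [Fin.snoc_castSucc, Fin.snoc_last, mul_zero, add_zero]
  have : ∑ j : Fin t, Θ j.castSucc * (P j + xi2 e (x j) - C) = ∑ j : Fin t, Θ j.castSucc * Q j := rfl
  rw [this]
  have e3 : ∑ j, exp ((P j + xi2 e (x j) - C) / 8) = ∑ j, exp (Q j / 8) := rfl
  rw [e3]
  linarith

end Pool.Agent.H.MP_f3079c_lc
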